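import Mathlib

/-! Both ends of the range of `m` for the zeros of the `m`-th derivative of `P ^ n`:
no zeros near a point `z` with `P z ≠ 0`, `P' z ≠ 0` (for `m ≤ ε n`), resp. near a point
different from the centroid of the zeros (for `nd - m ≤ ε n`), by an elementary recurrence. -/

namespace Pool.Agent.Shadow69

open Polynomial Finset

/-- The recurrence of the coefficients of `p ^ n`. -/
theorem coeff_pow_rec (p : ℂ[X]) (n m : ℕ) :
    p.coeff 0 * ((m : ℂ) + 1) * (p ^ n).coeff (m + 1) =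
      ∑ i ∈ range (m + 1), ((n : ℂ) * ((i : ℂ) + 1) - ((m : ℂ) - (i : ℂ))) *
        p.coeff (i + 1) * (p ^ n).coeff (m - i) := by
  have key : p * derivative (p ^ n) = C (n : ℂ) * (derivative p * p ^ n) := by
    rcases n with _ | n
    · simp
    · rw [derivative_pow]
      simp only [Nat.add_sub_cancel, pow_succ, map_natCast]
      ring
  have h := congrArg (fun q => coeff q m) key
  simp only [coeff_C_mul] at h
  simp only [coeff_mul, Finset.Nat.sum_antidiagonal_eq_sum_range_succ_mk,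
    coeff_derivative, Nat.succ_eq_add_one] at h
  rw [Finset.sum_range_succ'] at h
  have h1 : ∀ k ∈ range m, p.coeff (k + 1) * ((p ^ n).coeff (m - (k + 1) + 1) *
      (((m - (k + 1) : ℕ) : ℂ) + 1)) =
      ((m : ℂ) - (k : ℂ)) * p.coeff (k + 1) * (p ^ n).coeff (m - k) := by
    intro k hk
    rw [mem_range] at hk
    have e : m - (k + 1) + 1 = m - k := by omega
    have e2 : (((m - (k + 1) : ℕ) : ℂ) + 1) = (m : ℂ) - (k : ℂ) := by
      have : (((m - (k + 1) + 1 : ℕ)) : ℂ) = ((m - k : ℕ) : ℂ) := by rw [e]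
      rw [Nat.cast_sub (le_of_lt hk)] at this
      rw [← this]
      push_cast
      ring
    rw [e, e2]
    ring
  rw [Finset.sum_congr rfl h1] at h
  have h2 : ∑ k ∈ range m, ((m : ℂ) - (k : ℂ)) * p.coeff (k + 1) * (p ^ n).coeff (m - k) =
      ∑ k ∈ range (m + 1), ((m : ℂ) - (k : ℂ)) * p.coeff (k + 1) * (p ^ n).coeff (m - k) := by
    rw [Finset.sum_range_succ]
    simp
  rw [h2] at h
  simp only [Nat.sub_zero] at h
  have h3 : ∑ i ∈ range (m + 1), ((n : ℂ) * ((i : ℂ) + 1) - ((m : ℂ) - (i : ℂ))) *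
        p.coeff (i + 1) * (p ^ n).coeff (m - i) =
      (n : ℂ) * ∑ k ∈ range (m + 1), p.coeff (k + 1) * ((k : ℂ) + 1) * (p ^ n).coeff (m - k) -
      ∑ k ∈ range (m + 1), ((m : ℂ) - (k : ℂ)) * p.coeff (k + 1) * (p ^ n).coeff (m - k) := by
    rw [Finset.mul_sum, ← Finset.sum_sub_distrib]
    refine Finset.sum_congr rfl fun k _ => ?_
    ring
  rw [h3, ← h]
  ring

/-- No vanishing coefficient of `p ^ n` in the range `m ≤ ε n`. -/
theorem coeff_pow_ne_zero (p : ℂ[X]) (h0 : p.coeff 0 ≠ 0) (ε R : ℝ) (hR : 0 < R)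
    (hε : 0 ≤ ε) (hε1 : ε ≤ 1)
    (hS : R * ‖p.coeff 0‖ ≤ (1 - ε) * ‖p.coeff 1‖ -
      ∑ i ∈ range p.natDegree, ((i : ℝ) + 2) * ‖p.coeff (i + 2)‖ * (ε / R) ^ (i + 1))
    (n m : ℕ) (hm : (m : ℝ) ≤ ε * n) : (p ^ n).coeff m ≠ 0 := by
  rcases Nat.eq_zero_or_pos n with hn0 | hn
  · subst hn0
    have : m = 0 := by
      simp only [Nat.cast_zero, mul_zero] at hm
      exact_mod_cast le_antisymm hm (Nat.cast_nonneg m)
    subst this
    simp
  have hnR : (0 : ℝ) < n := by exact_mod_cast hn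
  have hq : 0 ≤ ε / R := div_nonneg hε hR.le
  have key : ∀ m : ℕ, (m : ℝ) ≤ ε * n →
      (p ^ n).coeff m ≠ 0 ∧ R * n * ‖(p ^ n).coeff m‖ ≤ (m + 1) * ‖(p ^ n).coeff (m + 1)‖ := by
    intro m
    induction m using Nat.strong_induction_on with
    | _ m ih =>
      intro hm
      have hcm : (p ^ n).coeff m ≠ 0 := by
        rcases Nat.eq_zero_or_pos m with h | h
        · subst h
          rw [coeff_zero_eq_eval_zero, eval_pow, ← coeff_zero_eq_eval_zero]
          exact pow_ne_zero _ h0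
        · obtain ⟨k, rfl⟩ : ∃ k, m = k + 1 := ⟨m - 1, by omega⟩
          have hk : (k : ℝ) ≤ ε * n := by
            push_cast at hm
            linarith
          obtain ⟨hk1, hk2⟩ := ih k (by omega) hk
          intro h
          rw [h, norm_zero, mul_zero] at hk2
          have : 0 < R * n * ‖(p ^ n).coeff k‖ := by
            have := norm_pos_iff.mpr hk1
            positivity
          linarith
      refine ⟨hcm, ?_⟩
      -- bound of the earlier coefficients
      have hb : ∀ i ≤ m, ‖(p ^ n).coeff (m - i)‖ ≤ (ε / R) ^ i * ‖(p ^ n).coeff m‖ := by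
        intro i
        induction i with
        | zero => intro _; simp
        | succ i ihi =>
          intro hi
          have h1 := ihi (by omega)
          have hlt : m - (i + 1) < m := by omega
          have hj : ((m - (i + 1) : ℕ) : ℝ) ≤ ε * n := by
            refine le_trans ?_ hm
            exact_mod_cast hlt.le
          obtain ⟨_, h2⟩ := ih (m - (i + 1)) hlt hj
          have e : m - (i + 1) + 1 = m - i := by omega
          rw [e] at h2
          have e3 : (((m - (i + 1) : ℕ) : ℝ) + 1) ≤ ε * n := by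
            refine le_trans ?_ hm
            exact_mod_cast hlt
          have h3 : R * n * ‖(p ^ n).coeff (m - (i + 1))‖ ≤ ε * n * ‖(p ^ n).coeff (m - i)‖ :=
            h2.trans (mul_le_mul_of_nonneg_right e3 (norm_nonneg _))
          have h4 : ‖(p ^ n).coeff (m - (i + 1))‖ ≤ (ε / R) * ‖(p ^ n).coeff (m - i)‖ := by
            rw [div_mul_eq_mul_div, le_div_iff₀ hR]
            have : n * (‖(p ^ n).coeff (m - (i + 1))‖ * R) ≤
                n * (ε * ‖(p ^ n).coeff (m - i)‖) := by linarith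
            exact le_of_mul_le_mul_left this hnR
          calc ‖(p ^ n).coeff (m - (i + 1))‖ ≤ (ε / R) * ‖(p ^ n).coeff (m - i)‖ := h4
            _ ≤ (ε / R) * ((ε / R) ^ i * ‖(p ^ n).coeff m‖) :=
                mul_le_mul_of_nonneg_left h1 hq
            _ = (ε / R) ^ (i + 1) * ‖(p ^ n).coeff m‖ := by ring
      have hrec := coeff_pow_rec p n m
      rw [Finset.sum_range_succ'] at hrec
      simp only [Nat.cast_zero, zero_add, mul_one, sub_zero, Nat.sub_zero] at hrec
      set c := ‖(p ^ n).coeff m‖ with hc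
      have hcpos : 0 < c := norm_pos_iff.mpr hcm
      have hmn : (m : ℝ) ≤ n := by
        refine hm.trans ?_
        nlinarith
      -- the tail
      set T : ℂ := ∑ k ∈ range m, ((n : ℂ) * (((k + 1 : ℕ) : ℂ) + 1) - ((m : ℂ) - ((k + 1 : ℕ) : ℂ))) *
        p.coeff (k + 1 + 1) * (p ^ n).coeff (m - (k + 1)) with hT
      have hTb : ‖T‖ ≤ n * c * ∑ i ∈ range p.natDegree,
          ((i : ℝ) + 2) * ‖p.coeff (i + 2)‖ * (ε / R) ^ (i + 1) := by
        have step1 : ‖T‖ ≤ ∑ i ∈ range m, n * c *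
            (((i : ℝ) + 2) * ‖p.coeff (i + 2)‖ * (ε / R) ^ (i + 1)) := by
          refine (norm_sum_le _ _).trans (Finset.sum_le_sum fun i hi => ?_)
          rw [mem_range] at hi
          rw [norm_mul, norm_mul]
          have e1 : ((n : ℂ) * (((i + 1 : ℕ) : ℂ) + 1) - ((m : ℂ) - ((i + 1 : ℕ) : ℂ))) =
              (((n : ℝ) * ((i : ℝ) + 2) - ((m : ℝ) - ((i : ℝ) + 1)) : ℝ) : ℂ) := by
            push_cast
            ring
          have hi' : (i : ℝ) + 1 ≤ m := by exact_mod_cast hi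
          have hi0 : (0 : ℝ) ≤ i := Nat.cast_nonneg i
          have e2 : ‖((n : ℂ) * (((i + 1 : ℕ) : ℂ) + 1) - ((m : ℂ) - ((i + 1 : ℕ) : ℂ)))‖ ≤
              n * ((i : ℝ) + 2) := by
            rw [e1, Complex.norm_real, Real.norm_eq_abs, abs_le]
            constructor
            · nlinarith
            · nlinarith
          have e3 := hb (i + 1) (by omega)
          calc ‖((n : ℂ) * (((i + 1 : ℕ) : ℂ) + 1) - ((m : ℂ) - ((i + 1 : ℕ) : ℂ)))‖ *
              ‖p.coeff (i + 1 + 1)‖ * ‖(p ^ n).coeff (m - (i + 1))‖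
              ≤ (n * ((i : ℝ) + 2)) * ‖p.coeff (i + 1 + 1)‖ * ((ε / R) ^ (i + 1) * c) := by
                gcongr
            _ = n * c * (((i : ℝ) + 2) * ‖p.coeff (i + 2)‖ * (ε / R) ^ (i + 1)) := by
                ring_nf
        rw [← Finset.mul_sum] at step1
        refine step1.trans (mul_le_mul_of_nonneg_left ?_ (by positivity))
        have hnn : ∀ i : ℕ, 0 ≤ ((i : ℝ) + 2) * ‖p.coeff (i + 2)‖ * (ε / R) ^ (i + 1) := by
          intro i
          positivity
        calc ∑ i ∈ range m, ((i : ℝ) + 2) * ‖p.coeff (i + 2)‖ * (ε / R) ^ (i + 1)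
            ≤ ∑ i ∈ range (max m p.natDegree),
              ((i : ℝ) + 2) * ‖p.coeff (i + 2)‖ * (ε / R) ^ (i + 1) :=
              Finset.sum_le_sum_of_subset_of_nonneg
                (Finset.range_mono (le_max_left _ _)) (fun i _ _ => hnn i)
          _ = ∑ i ∈ range p.natDegree,
              ((i : ℝ) + 2) * ‖p.coeff (i + 2)‖ * (ε / R) ^ (i + 1) := by
              symm
              refine Finset.sum_subset (Finset.range_mono (le_max_right _ _)) fun i _ hi => ?_
              rw [mem_range, not_lt] at hi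
              rw [coeff_eq_zero_of_natDegree_lt (by omega)]
              simp
      have hmain : ‖p.coeff 0‖ * ((m + 1) * ‖(p ^ n).coeff (m + 1)‖) =
          ‖T + ((n : ℂ) - (m : ℂ)) * p.coeff 1 * (p ^ n).coeff m‖ := by
        rw [← hrec, norm_mul, norm_mul]
        have : ‖((m : ℂ) + 1)‖ = (m : ℝ) + 1 := by
          have : ((m : ℂ) + 1) = (((m : ℝ) + 1 : ℝ) : ℂ) := by push_cast; ring
          rw [this, Complex.norm_real, Real.norm_eq_abs, abs_of_nonneg (by positivity)]
        rw [this]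
        ring
      have hlow : ‖((n : ℂ) - (m : ℂ)) * p.coeff 1 * (p ^ n).coeff m‖ =
          ((n : ℝ) - m) * ‖p.coeff 1‖ * c := by
        rw [norm_mul, norm_mul]
        have : ((n : ℂ) - (m : ℂ)) = (((n : ℝ) - m : ℝ) : ℂ) := by push_cast; ring
        rw [this, Complex.norm_real, Real.norm_eq_abs, abs_of_nonneg (by linarith)]
      have htri : ‖((n : ℂ) - (m : ℂ)) * p.coeff 1 * (p ^ n).coeff m‖ - ‖T‖ ≤
          ‖T + ((n : ℂ) - (m : ℂ)) * p.coeff 1 * (p ^ n).coeff m‖ := by
        have := norm_sub_norm_le (((n : ℂ) - (m : ℂ)) * p.coeff 1 * (p ^ n).coeff m) (-T)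
        rw [norm_neg, sub_neg_eq_add, add_comm (((n : ℂ) - (m : ℂ)) * p.coeff 1 * (p ^ n).coeff m) T]
          at this
        exact this
      have hp0 : 0 < ‖p.coeff 0‖ := norm_pos_iff.mpr h0
      have hfin : ‖p.coeff 0‖ * (R * n * c) ≤
          ‖p.coeff 0‖ * ((m + 1) * ‖(p ^ n).coeff (m + 1)‖) := by
        rw [hmain]
        refine le_trans ?_ htri
        rw [hlow]
        have h5 : (1 - ε) * n * (‖p.coeff 1‖ * c) ≤ ((n : ℝ) - m) * (‖p.coeff 1‖ * c) := by
          refine mul_le_mul_of_nonneg_right ?_ (by positivity)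
          linarith
        have h6 := mul_le_mul_of_nonneg_left hS (show (0 : ℝ) ≤ n * c by positivity)
        nlinarith
      exact le_of_mul_le_mul_left hfin hp0
  exact (key m hm).1

/-- The value of the iterated derivative is `m!` times a Taylor coefficient. -/
theorem eval_iterate_derivative_eq (Q : ℂ[X]) (m : ℕ) (z : ℂ) :
    (derivative^[m] Q).eval z = (m.factorial : ℂ) * (taylor z Q).coeff m := by
  rw [taylor_coeff, ← factorial_smul_hasseDeriv]
  simp [nsmul_eq_mul]

theorem taylor_pow' (P : ℂ[X]) (n : ℕ) (z : ℂ) : taylor z (P ^ n) = (taylor z P) ^ n := by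
  induction n with
  | zero => simp
  | succ n ih => rw [pow_succ, taylor_mul, ih, pow_succ]

theorem continuous_taylor_coeff (P : ℂ[X]) (m : ℕ) :
    Continuous fun z : ℂ => (taylor z P).coeff m := by
  simp only [taylor_coeff]
  exact (hasseDeriv m P).continuous

/-- Open condition for the numerical inequality. -/
theorem eventually_ineq (P : ℂ[X]) (e : ℕ → ℕ) (z0 : ℂ) (N : ℕ) (ε R : ℝ)
    (hS : R * ‖(taylor z0 P).coeff (e 0)‖ < (1 - ε) * ‖(taylor z0 P).coeff (e 1)‖ -
      ∑ i ∈ range N, ((i : ℝ) + 2) * ‖(taylor z0 P).coeff (e (i + 2))‖ * (ε / R) ^ (i + 1)) :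
    ∀ᶠ z in nhds z0, R * ‖(taylor z P).coeff (e 0)‖ < (1 - ε) * ‖(taylor z P).coeff (e 1)‖ -
      ∑ i ∈ range N, ((i : ℝ) + 2) * ‖(taylor z P).coeff (e (i + 2))‖ * (ε / R) ^ (i + 1) := by
  have h1 : Continuous fun z : ℂ => R * ‖(taylor z P).coeff (e 0)‖ :=
    continuous_const.mul (continuous_taylor_coeff P _).norm
  have h2 : Continuous fun z : ℂ => (1 - ε) * ‖(taylor z P).coeff (e 1)‖ -
      ∑ i ∈ range N, ((i : ℝ) + 2) * ‖(taylor z P).coeff (e (i + 2))‖ * (ε / R) ^ (i + 1) := by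
    refine (continuous_const.mul (continuous_taylor_coeff P _).norm).sub ?_
    refine continuous_finsetSum _ fun i _ => ?_
    exact (continuous_const.mul (continuous_taylor_coeff P _).norm).mul continuous_const
  exact (isOpen_lt h1 h2).mem_nhds hS

/-- LOWER END: no zeros of the `m`-th derivative of `P ^ n` near `z0` for `m ≤ ε n`. -/
theorem lower_end (P : ℂ[X]) (z0 : ℂ) (h0 : P.eval z0 ≠ 0) (ε R : ℝ) (hR : 0 < R)
    (hε : 0 ≤ ε) (hε1 : ε ≤ 1)
    (hS : R * ‖(taylor z0 P).coeff 0‖ < (1 - ε) * ‖(taylor z0 P).coeff 1‖ -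
      ∑ i ∈ range P.natDegree, ((i : ℝ) + 2) * ‖(taylor z0 P).coeff (i + 2)‖ *
        (ε / R) ^ (i + 1)) :
    ∀ᶠ z in nhds z0, ∀ n m : ℕ, (m : ℝ) ≤ ε * n →
      (derivative^[m] (P ^ n)).eval z ≠ 0 := by
  have h1 : ∀ᶠ z in nhds z0, P.eval z ≠ 0 := P.continuous.continuousAt.eventually_ne h0
  filter_upwards [h1, eventually_ineq P id z0 P.natDegree ε R hS] with z hz1 hz2 n m hm
  rw [eval_iterate_derivative_eq, taylor_pow']
  refine mul_ne_zero (by exact_mod_cast Nat.factorial_ne_zero m) ?_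
  refine coeff_pow_ne_zero (taylor z P) ?_ ε R hR hε hε1 ?_ n m hm
  · rw [taylor_coeff_zero]
    exact hz1
  · rw [natDegree_taylor]
    exact hz2.le

theorem reflect_pow (p : ℂ[X]) (d : ℕ) (hd : p.natDegree ≤ d) (n : ℕ) :
    reflect (n * d) (p ^ n) = (reflect d p) ^ n := by
  induction n with
  | zero => simp
  | succ n ih =>
    rw [pow_succ, pow_succ, ← ih, Nat.succ_mul]
    refine reflect_mul _ _ ?_ hd
    exact (natDegree_pow_le).trans (Nat.mul_le_mul_left n hd)

/-- UPPER END: no zeros of the `m`-th derivative of `P ^ n` near `z0` for `nd - m ≤ ε n`. -/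
theorem upper_end (P : ℂ[X]) (hP : P ≠ 0) (z0 : ℂ) (ε R : ℝ) (hR : 0 < R)
    (hε : 0 ≤ ε) (hε1 : ε ≤ 1)
    (hS : R * ‖(taylor z0 P).coeff (revAt P.natDegree 0)‖ <
      (1 - ε) * ‖(taylor z0 P).coeff (revAt P.natDegree 1)‖ -
      ∑ i ∈ range P.natDegree, ((i : ℝ) + 2) *
        ‖(taylor z0 P).coeff (revAt P.natDegree (i + 2))‖ * (ε / R) ^ (i + 1)) :
    ∀ᶠ z in nhds z0, ∀ n m : ℕ, m ≤ n * P.natDegree →
      ((n * P.natDegree : ℕ) : ℝ) - m ≤ ε * n →
      (derivative^[m] (P ^ n)).eval z ≠ 0 := by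
  filter_upwards [eventually_ineq P (revAt P.natDegree) z0 P.natDegree ε R hS]
    with z hz n m hmn hm
  rw [eval_iterate_derivative_eq, taylor_pow']
  refine mul_ne_zero (by exact_mod_cast Nat.factorial_ne_zero m) ?_
  have hdeg : (taylor z P).natDegree = P.natDegree := natDegree_taylor P z
  have e1 : ((taylor z P) ^ n).coeff m =
      ((reflect P.natDegree (taylor z P)) ^ n).coeff (n * P.natDegree - m) := by
    rw [← reflect_pow _ _ hdeg.le, coeff_reflect, revAt_le (Nat.sub_le _ _)]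
    congr 1
    omega
  rw [e1]
  refine coeff_pow_ne_zero _ ?_ ε R hR hε hε1 ?_ n _ ?_
  · rw [coeff_reflect, revAt_le (Nat.zero_le _), Nat.sub_zero, ← hdeg]
    rw [coeff_natDegree, leadingCoeff_ne_zero]
    intro h
    apply hP
    have := congrArg (fun q => q.comp (X - C z)) h
    simpa [taylor_apply, comp_assoc] using this
  · simp only [coeff_reflect]
    refine le_trans hz.le ?_
    refine sub_le_sub_left ?_ _
    refine Finset.sum_le_sum_of_subset_of_nonneg ?_ fun i _ _ => by positivity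
    refine Finset.range_mono ?_
    rw [natDegree_le_iff_coeff_eq_zero]
    intro N hN
    rw [coeff_reflect, revAt_eq_self_of_lt hN, coeff_eq_zero_of_natDegree_lt (by omega)]
  · rw [Nat.cast_sub hmn]
    exact hm

end Pool.Agent.Shadow69
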