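import Pool.Agent.Shadow75.Polyline

/-! The far part of the contour: at the limit parameters the height
`‖P y‖ ‖w0 - p‖ ^ α < ‖P w0‖ ‖y - p‖ ^ α` is strictly smaller on a compact piece of a segment;
then the integrand is exponentially small relative to its value at the moving saddle. -/

set_option autoImplicit false

namespace Pool.Agent.Shadow69

open Polynomial Filter Topology Set Pool.Agent.Shadow75

/-- The integrand `P(w)^n / (w - z)^(m + j)`. -/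
noncomputable def ker (P : ℂ[X]) (j n m : ℕ) (z w : ℂ) : ℂ := P.eval w ^ n / (w - z) ^ (m + j)

/-- strict height inequality of `y` against `w0` at the parameters `(α, p)` -/
def Low (P : ℂ[X]) (α : ℝ) (p w0 y : ℂ) : Prop :=
  y ≠ p ∧ ‖P.eval y‖ * ‖w0 - p‖ ^ α < ‖P.eval w0‖ * ‖y - p‖ ^ α

/-- the relative height -/
noncomputable def relH (P : ℂ[X]) (α : ℝ) (z w y : ℂ) : ℝ :=
  (‖P.eval y‖ / ‖P.eval w‖) * (‖w - z‖ / ‖y - z‖) ^ α

theorem relH_nonneg (P : ℂ[X]) (α : ℝ) (z w y : ℂ) : 0 ≤ relH P α z w y := by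
  unfold relH
  positivity

theorem relH_lt_one {P : ℂ[X]} {α : ℝ} {p w0 y : ℂ} (hP : P.eval w0 ≠ 0)
    (h : Low P α p w0 y) : relH P α p w0 y < 1 := by
  unfold relH
  have h1 : 0 < ‖y - p‖ := norm_pos_iff.mpr (sub_ne_zero.mpr h.1)
  have h2 : 0 < ‖P.eval w0‖ := norm_pos_iff.mpr hP
  rw [Real.div_rpow (norm_nonneg _) (norm_nonneg _), div_mul_div_comm, div_lt_one (by positivity)]
  exact h.2

/-- the integrand at `y` relative to the integrand at `w` -/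
theorem norm_ker_eq {P : ℂ[X]} {j n m : ℕ} {z w y : ℂ} (hn : 0 < n) (hP : P.eval w ≠ 0)
    (hw : w ≠ z) (hy : y ≠ z) :
    ‖ker P j n m z y‖ = ‖ker P j n m z w‖ * (relH P ((m : ℝ) / n) z w y) ^ n *
      (‖w - z‖ / ‖y - z‖) ^ j := by
  have h1 : 0 < ‖y - z‖ := norm_pos_iff.mpr (sub_ne_zero.mpr hy)
  have h2 : 0 < ‖w - z‖ := norm_pos_iff.mpr (sub_ne_zero.mpr hw)
  have h3 : 0 < ‖P.eval w‖ := norm_pos_iff.mpr hP
  have hnn : (n : ℝ) ≠ 0 := by exact_mod_cast hn.ne'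
  unfold ker relH
  rw [norm_div, norm_div, norm_pow, norm_pow, norm_pow, norm_pow, mul_pow,
    ← Real.rpow_natCast ((‖w - z‖ / ‖y - z‖) ^ ((m : ℝ) / n)) n,
    ← Real.rpow_mul (by positivity), div_mul_cancel₀ _ hnn, Real.rpow_natCast,
    div_pow, div_pow, div_pow, pow_add, pow_add]
  field_simp

/-- FAR LEMMA: moving segments. -/
theorem far_bound {ι : Type*} {l : Filter ι} {P : ℂ[X]} {α : ℝ} {p w0 a b : ℂ} {δ : ℝ} (j : ℕ)
    (hP : P.eval w0 ≠ 0) (hw0 : w0 ≠ p)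
    (hlow : ∀ t ∈ Icc δ (1 : ℝ), Low P α p w0 (a + t * (b - a)))
    {n m : ι → ℕ} {z w A B : ι → ℂ}
    (hn : Tendsto n l atTop) (hα : Tendsto (fun k => (m k : ℝ) / n k) l (𝓝 α))
    (hz : Tendsto z l (𝓝 p)) (hw : Tendsto w l (𝓝 w0))
    (hA : Tendsto A l (𝓝 a)) (hB : Tendsto B l (𝓝 b)) :
    ∃ q C : ℝ, 0 < q ∧ q < 1 ∧ 0 < C ∧ ∀ᶠ k in l, ∀ t ∈ Icc δ (1 : ℝ),
      ‖ker P j (n k) (m k) (z k) (A k + t * (B k - A k))‖ ≤
        C * q ^ (n k) * ‖ker P j (n k) (m k) (z k) (w k)‖ := by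
  -- the function of all parameters
  let Φ : (ℝ × ℂ × ℂ × ℂ × ℂ) × ℝ → ℝ := fun x =>
    relH P x.1.1 x.1.2.1 x.1.2.2.1 (x.1.2.2.2.1 + x.2 * (x.1.2.2.2.2 - x.1.2.2.2.1))
  let Γ : (ℝ × ℂ × ℂ × ℂ × ℂ) × ℝ → ℝ := fun x =>
    ‖x.1.2.2.1 - x.1.2.1‖ / ‖(x.1.2.2.2.1 + x.2 * (x.1.2.2.2.2 - x.1.2.2.2.1)) - x.1.2.1‖
  let x0 : ℝ × ℂ × ℂ × ℂ × ℂ := (α, p, w0, a, b)
  have hcont : ∀ t ∈ Icc δ (1 : ℝ), ContinuousAt Φ (x0, t) := by
    intro t ht
    have hne := (hlow t ht).1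
    have h1 : ‖(a + t * (b - a)) - p‖ ≠ 0 := norm_ne_zero_iff.mpr (sub_ne_zero.mpr hne)
    have h2 : ‖w0 - p‖ / ‖(a + t * (b - a)) - p‖ ≠ 0 :=
      div_ne_zero (norm_ne_zero_iff.mpr (sub_ne_zero.mpr hw0)) h1
    have h3 : ‖P.eval w0‖ ≠ 0 := norm_ne_zero_iff.mpr hP
    have c1 : ContinuousAt (fun x : (ℝ × ℂ × ℂ × ℂ × ℂ) × ℝ =>
        ‖P.eval (x.1.2.2.2.1 + x.2 * (x.1.2.2.2.2 - x.1.2.2.2.1))‖) (x0, t) := by
      refine ContinuousAt.norm ?_
      exact (P.continuous.comp (by fun_prop)).continuousAt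
    have c2 : ContinuousAt (fun x : (ℝ × ℂ × ℂ × ℂ × ℂ) × ℝ => ‖P.eval x.1.2.2.1‖) (x0, t) := by
      refine ContinuousAt.norm ?_
      exact (P.continuous.comp (by fun_prop)).continuousAt
    have c3 : ContinuousAt Γ (x0, t) := by
      refine ContinuousAt.div (by fun_prop) (by fun_prop) h1
    have c4 : ContinuousAt (fun x : (ℝ × ℂ × ℂ × ℂ × ℂ) × ℝ => x.1.1) (x0, t) := by fun_prop
    exact (c1.div c2 h3).mul (c3.rpow c4 (Or.inl h2))
  have hcont2 : ∀ t ∈ Icc δ (1 : ℝ), ContinuousAt Γ (x0, t) := by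
    intro t ht
    have hne := (hlow t ht).1
    have h1 : ‖(a + t * (b - a)) - p‖ ≠ 0 := norm_ne_zero_iff.mpr (sub_ne_zero.mpr hne)
    exact ContinuousAt.div (by fun_prop) (by fun_prop) h1
  have hcpt : IsCompact (Icc δ (1 : ℝ)) := isCompact_Icc
  -- the maximum at the limit
  obtain ⟨q, hq0, hq1, hq⟩ : ∃ q : ℝ, 0 < q ∧ q < 1 ∧ ∀ t ∈ Icc δ (1 : ℝ), Φ (x0, t) < q := by
    rcases (Icc δ (1 : ℝ)).eq_empty_or_nonempty with he | hne
    · exact ⟨1 / 2, by norm_num, by norm_num, fun t ht => absurd ht (by rw [he]; simp)⟩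
    · have hco : ContinuousOn (fun t => Φ (x0, t)) (Icc δ (1 : ℝ)) := by
        intro t ht
        refine ContinuousAt.continuousWithinAt ?_
        exact ContinuousAt.comp (f := fun t : ℝ => (x0, t)) (hcont t ht) (by fun_prop)
      obtain ⟨t0, ht0, hmax⟩ := hcpt.exists_isMaxOn hne hco
      have hlt : Φ (x0, t0) < 1 := relH_lt_one hP (hlow t0 ht0)
      have hnn : 0 ≤ Φ (x0, t0) := relH_nonneg _ _ _ _ _
      refine ⟨(Φ (x0, t0) + 1) / 2, by linarith, by linarith, fun t ht => ?_⟩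
      have := hmax ht
      simp only [mem_ofPred_eq] at this
      linarith
  obtain ⟨C, hC0, hC⟩ : ∃ C : ℝ, 0 < C ∧ ∀ t ∈ Icc δ (1 : ℝ), Γ (x0, t) < C := by
    rcases (Icc δ (1 : ℝ)).eq_empty_or_nonempty with he | hne
    · exact ⟨1, by norm_num, fun t ht => absurd ht (by rw [he]; simp)⟩
    · have hco : ContinuousOn (fun t => Γ (x0, t)) (Icc δ (1 : ℝ)) := by
        intro t ht
        refine ContinuousAt.continuousWithinAt ?_
        exact ContinuousAt.comp (f := fun t : ℝ => (x0, t)) (hcont2 t ht) (by fun_prop)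
      obtain ⟨t0, ht0, hmax⟩ := hcpt.exists_isMaxOn hne hco
      have hnn : 0 ≤ Γ (x0, t0) := by positivity
      refine ⟨Γ (x0, t0) + 1, by linarith, fun t ht => ?_⟩
      have := hmax ht
      simp only [mem_ofPred_eq] at this
      linarith
  -- tube lemma
  have htube : ∀ᶠ x in 𝓝 x0, ∀ t ∈ Icc δ (1 : ℝ), Φ (x, t) < q ∧ Γ (x, t) < C ∧
      (x.2.2.2.1 + t * (x.2.2.2.2 - x.2.2.2.1)) - x.2.1 ≠ 0 := by
    have h1 : ∀ t ∈ Icc δ (1 : ℝ), ∀ᶠ y in 𝓝 (x0, t), Φ y < q ∧ Γ y < C ∧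
        (y.1.2.2.2.1 + y.2 * (y.1.2.2.2.2 - y.1.2.2.2.1)) - y.1.2.1 ≠ 0 := by
      intro t ht
      have c5 : ContinuousAt (fun y : (ℝ × ℂ × ℂ × ℂ × ℂ) × ℝ =>
          (y.1.2.2.2.1 + y.2 * (y.1.2.2.2.2 - y.1.2.2.2.1)) - y.1.2.1) (x0, t) := by fun_prop
      exact ((hcont t ht).eventually_lt continuousAt_const (hq t ht)).and
        (((hcont2 t ht).eventually_lt continuousAt_const (hC t ht)).and
          (c5.eventually_ne (sub_ne_zero.mpr (hlow t ht).1)))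
    exact hcpt.eventually_forall_of_forall_eventually h1
  refine ⟨q, C ^ j, hq0, hq1, by positivity, ?_⟩
  have hx : Tendsto (fun k => ((m k : ℝ) / n k, z k, w k, A k, B k)) l (𝓝 x0) :=
    hα.prodMk_nhds (hz.prodMk_nhds (hw.prodMk_nhds (hA.prodMk_nhds hB)))
  have e1 := hx.eventually htube
  have e2 : ∀ᶠ k in l, 0 < n k := hn.eventually_gt_atTop 0
  have e3 : ∀ᶠ k in l, P.eval (w k) ≠ 0 :=
    (P.continuous.tendsto w0 |>.comp hw).eventually_ne hP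
  have e4 : ∀ᶠ k in l, w k - z k ≠ 0 := (hw.sub hz).eventually_ne (sub_ne_zero.mpr hw0)
  filter_upwards [e1, e2, e3, e4] with k h1 h2 h3 h4 t ht
  obtain ⟨h5, h6, h7⟩ := h1 t ht
  rw [norm_ker_eq h2 h3 (sub_ne_zero.mp h4) (sub_ne_zero.mp h7)]
  have h8 : relH P ((m k : ℝ) / n k) (z k) (w k) (A k + t * (B k - A k)) ^ (n k) ≤ q ^ (n k) :=
    pow_le_pow_left₀ (relH_nonneg _ _ _ _ _) h5.le _
  have h9 : (‖w k - z k‖ / ‖A k + t * (B k - A k) - z k‖) ^ j ≤ C ^ j :=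
    pow_le_pow_left₀ (by positivity) h6.le _
  calc ‖ker P j (n k) (m k) (z k) (w k)‖ *
        relH P ((m k : ℝ) / n k) (z k) (w k) (A k + t * (B k - A k)) ^ (n k) *
        (‖w k - z k‖ / ‖A k + t * (B k - A k) - z k‖) ^ j
      ≤ ‖ker P j (n k) (m k) (z k) (w k)‖ * q ^ (n k) * C ^ j := by
        gcongr
    _ = C ^ j * q ^ (n k) * ‖ker P j (n k) (m k) (z k) (w k)‖ := by ring

/-- all segments of the polyline are strictly lower than `w0` -/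
def PolyLow (P : ℂ[X]) (α : ℝ) (p w0 : ℂ) : List ℂ → Prop
  | [] => True
  | [_] => True
  | a :: b :: l => (∀ t ∈ Icc (0 : ℝ) 1, Low P α p w0 (a + t * (b - a))) ∧
      PolyLow P α p w0 (b :: l)

theorem norm_segInt_far {ι : Type*} {l : Filter ι} {P : ℂ[X]} {α : ℝ} {p w0 a b : ℂ} (j : ℕ)
    (hP : P.eval w0 ≠ 0) (hw0 : w0 ≠ p)
    (hlow : ∀ t ∈ Icc (0 : ℝ) (1 : ℝ), Low P α p w0 (a + t * (b - a)))
    {n m : ι → ℕ} {z w : ι → ℂ}
    (hn : Tendsto n l atTop) (hα : Tendsto (fun k => (m k : ℝ) / n k) l (𝓝 α))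
    (hz : Tendsto z l (𝓝 p)) (hw : Tendsto w l (𝓝 w0)) :
    ∃ q C : ℝ, 0 < q ∧ q < 1 ∧ 0 < C ∧ ∀ᶠ k in l,
      ‖segInt (ker P j (n k) (m k) (z k)) a b‖ ≤
        C * q ^ (n k) * ‖ker P j (n k) (m k) (z k) (w k)‖ := by
  obtain ⟨q, C, hq0, hq1, hC, h⟩ := far_bound j hP hw0 hlow hn hα hz hw
    (tendsto_const_nhds (x := a)) (tendsto_const_nhds (x := b))
  refine ⟨q, C * (‖b - a‖ + 1), hq0, hq1, by positivity, ?_⟩
  filter_upwards [h] with k hk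
  refine (norm_segInt_le (C := C * q ^ (n k) * ‖ker P j (n k) (m k) (z k) (w k)‖) hk).trans ?_
  have h1 : 0 ≤ C * q ^ (n k) * ‖ker P j (n k) (m k) (z k) (w k)‖ := by positivity
  nlinarith [norm_nonneg (b - a)]

/-- FAR LEMMA for a polyline with fixed vertices. -/
theorem norm_polyInt_far {ι : Type*} {l : Filter ι} {P : ℂ[X]} {α : ℝ} {p w0 : ℂ} (j : ℕ)
    (hP : P.eval w0 ≠ 0) (hw0 : w0 ≠ p)
    {n m : ι → ℕ} {z w : ι → ℂ}
    (hn : Tendsto n l atTop) (hα : Tendsto (fun k => (m k : ℝ) / n k) l (𝓝 α))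
    (hz : Tendsto z l (𝓝 p)) (hw : Tendsto w l (𝓝 w0)) :
    ∀ L : List ℂ, PolyLow P α p w0 L →
    ∃ q C : ℝ, 0 < q ∧ q < 1 ∧ 0 < C ∧ ∀ᶠ k in l,
      ‖polyInt (ker P j (n k) (m k) (z k)) L‖ ≤
        C * q ^ (n k) * ‖ker P j (n k) (m k) (z k) (w k)‖
  | [], _ => ⟨1 / 2, 1, by norm_num, by norm_num, by norm_num, Eventually.of_forall fun k => by
      simp only [polyInt, norm_zero]; positivity⟩
  | [_], _ => ⟨1 / 2, 1, by norm_num, by norm_num, by norm_num, Eventually.of_forall fun k => by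
      simp only [polyInt, norm_zero]; positivity⟩
  | a :: b :: L, h => by
      obtain ⟨q1, C1, h1, h2, h3, h4⟩ := norm_segInt_far j hP hw0 h.1 hn hα hz hw
      obtain ⟨q2, C2, g1, g2, g3, g4⟩ := norm_polyInt_far j hP hw0 hn hα hz hw (b :: L) h.2
      refine ⟨max q1 q2, C1 + C2, lt_max_of_lt_left h1, max_lt h2 g2, by positivity, ?_⟩
      filter_upwards [h4, g4] with k hk1 hk2
      rw [polyInt]
      refine (norm_add_le _ _).trans ?_
      have e1 : q1 ^ (n k) ≤ (max q1 q2) ^ (n k) := pow_le_pow_left₀ h1.le (le_max_left _ _) _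
      have e2 : q2 ^ (n k) ≤ (max q1 q2) ^ (n k) := pow_le_pow_left₀ g1.le (le_max_right _ _) _
      have e3 : C1 * q1 ^ (n k) * ‖ker P j (n k) (m k) (z k) (w k)‖ ≤
          C1 * (max q1 q2) ^ (n k) * ‖ker P j (n k) (m k) (z k) (w k)‖ := by gcongr
      have e4 : C2 * q2 ^ (n k) * ‖ker P j (n k) (m k) (z k) (w k)‖ ≤
          C2 * (max q1 q2) ^ (n k) * ‖ker P j (n k) (m k) (z k) (w k)‖ := by gcongr
      linarith

theorem tendsto_sqrt_mul_pow {ι : Type*} {l : Filter ι} {n : ι → ℕ} (hn : Tendsto n l atTop)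
    {q : ℝ} (hq0 : 0 < q) (hq1 : q < 1) (C : ℝ) :
    Tendsto (fun k => Real.sqrt (n k) * (C * q ^ (n k))) l (𝓝 0) := by
  have h1 : Tendsto (fun n : ℕ => (n : ℝ) * q ^ n) atTop (𝓝 0) :=
    tendsto_self_mul_const_pow_of_lt_one hq0.le hq1
  have h2 : Tendsto (fun n : ℕ => |C| * ((n : ℝ) * q ^ n)) atTop (𝓝 0) := by
    simpa using h1.const_mul |C|
  have h3 : Tendsto (fun n : ℕ => Real.sqrt n * (C * q ^ n)) atTop (𝓝 0) := by
    refine squeeze_zero_norm (fun n => ?_) h2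
    rcases Nat.eq_zero_or_pos n with h | h
    · subst h
      simp
    · rw [norm_mul, norm_mul, norm_pow, Real.norm_eq_abs, Real.norm_eq_abs, Real.norm_eq_abs,
        abs_of_pos hq0, abs_of_nonneg (Real.sqrt_nonneg _)]
      have h4 : Real.sqrt n ≤ n := by
        rw [Real.sqrt_le_left (by positivity)]
        have : (1 : ℝ) ≤ n := by exact_mod_cast h
        nlinarith
      calc Real.sqrt n * (|C| * q ^ n) ≤ n * (|C| * q ^ n) := by gcongr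
        _ = |C| * (n * q ^ n) := by ring
  exact h3.comp hn

end Pool.Agent.Shadow69
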