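import Pool.Agent.Shadow69.Local
import Pool.Agent.Shadow75.Ray

/-! The Gaussian limit along a segment that starts in a moving saddle. -/

set_option autoImplicit false

namespace Pool.Agent.Shadow69

open Polynomial Filter Topology Set MeasureTheory intervalIntegral Pool.Agent.Shadow75

/-- the remainder integral -/
noncomputable def remInt (P : ℂ[X]) (α : ℝ) (z w τ : ℂ) : ℂ :=
  ∫ x in (0 : ℝ)..1, (1 - (x : ℂ)) * Fpp P α z (w + x * τ)

theorem remInt_cont {P : ℂ[X]} {α : ℝ} {z w τ : ℂ}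
    (hP : ∀ x ∈ Icc (0 : ℝ) 1, P.eval (w + x * τ) ≠ 0)
    (hz : ∀ x ∈ Icc (0 : ℝ) 1, w + x * τ ≠ z) :
    ContinuousOn (fun x : ℝ => (1 - (x : ℂ)) * Fpp P α z (w + x * τ)) (Icc (0 : ℝ) 1) := by
  refine ContinuousOn.mul (by fun_prop) ?_
  intro x hx
  refine ContinuousAt.continuousWithinAt ?_
  exact ContinuousAt.comp (f := fun x : ℝ => w + (x : ℂ) * τ)
    (continuousAt_Fpp' (hP x hx) (hz x hx)) (by fun_prop)

theorem integral_one_sub : ∫ x in (0 : ℝ)..1, (1 - (x : ℂ)) = 1 / 2 := by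
  have h : ∀ x : ℝ, (1 - (x : ℂ)) = (((1 - x : ℝ)) : ℂ) := fun x => by push_cast; ring
  simp only [h]
  rw [intervalIntegral.integral_ofReal]
  have : ∫ x in (0 : ℝ)..1, (1 - x) = 1 / 2 := by
    rw [intervalIntegral.integral_sub intervalIntegrable_const intervalIntegrable_id]
    norm_num
  rw [this]
  norm_num

theorem integral_one_sub_real : ∫ x in (0 : ℝ)..1, (1 - x) = 1 / 2 := by
  rw [intervalIntegral.integral_sub intervalIntegrable_const intervalIntegrable_id]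
  norm_num

/-- real part of the exponent -/
theorem re_remInt_le {P : ℂ[X]} {α : ℝ} {z w τ U : ℂ} {c : ℝ}
    (hP : ∀ x ∈ Icc (0 : ℝ) 1, P.eval (w + x * τ) ≠ 0)
    (hz : ∀ x ∈ Icc (0 : ℝ) 1, w + x * τ ≠ z)
    (hc : ∀ x ∈ Icc (0 : ℝ) 1, (Fpp P α z (w + x * τ) * U).re ≤ -(2 * c)) :
    (U * remInt P α z w τ).re ≤ -c := by
  unfold remInt
  rw [← intervalIntegral.integral_const_mul]
  have hco := remInt_cont (α := α) hP hz
  have hii : IntervalIntegrable (fun x : ℝ => U * ((1 - (x : ℂ)) * Fpp P α z (w + x * τ)))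
      volume 0 1 := by
    refine ContinuousOn.intervalIntegrable ?_
    rw [uIcc_of_le zero_le_one]
    exact continuousOn_const.mul hco
  have h1 : (∫ x in (0 : ℝ)..1, U * ((1 - (x : ℂ)) * Fpp P α z (w + x * τ))).re =
      ∫ x in (0 : ℝ)..1, (U * ((1 - (x : ℂ)) * Fpp P α z (w + x * τ))).re := by
    have := Complex.reCLM.intervalIntegral_comp_comm hii
    simpa using this.symm
  rw [h1]
  have h2 : ∫ x in (0 : ℝ)..1, (U * ((1 - (x : ℂ)) * Fpp P α z (w + x * τ))).re ≤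
      ∫ x in (0 : ℝ)..1, (1 - x) * (-(2 * c)) := by
    refine intervalIntegral.integral_mono_on zero_le_one ?_ ?_ ?_
    · refine ContinuousOn.intervalIntegrable ?_
      rw [uIcc_of_le zero_le_one]
      exact Complex.continuous_re.comp_continuousOn (continuousOn_const.mul hco)
    · exact Continuous.intervalIntegrable (by fun_prop) _ _
    · intro x hx
      have e : U * ((1 - (x : ℂ)) * Fpp P α z (w + x * τ)) =
          (((1 - x : ℝ)) : ℂ) * (Fpp P α z (w + x * τ) * U) := by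
        push_cast
        ring
      rw [e, Complex.re_ofReal_mul]
      exact mul_le_mul_of_nonneg_left (hc x hx) (by linarith [hx.2])
  refine h2.trans ?_
  rw [intervalIntegral.integral_mul_const, integral_one_sub_real]
  linarith

/-- uniform local control at the limit parameters -/
theorem local_uniform {ι : Type*} {l : Filter ι} {P : ℂ[X]} {α : ℝ} {p w0 v : ℂ}
    (hP : P.eval w0 ≠ 0) (hw0 : w0 ≠ p) (hneg : (Fpp P α p w0 * (v - w0) ^ 2).re < 0)
    {a : ι → ℝ} {z w : ι → ℂ}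
    (hα : Tendsto a l (𝓝 α)) (hz : Tendsto z l (𝓝 p)) (hw : Tendsto w l (𝓝 w0)) :
    ∃ δ c : ℝ, 0 < δ ∧ δ ≤ 1 ∧ 0 < c ∧ ∀ᶠ k in l, ∀ t ∈ Icc (0 : ℝ) δ,
      P.eval (w k + t * (v - w k)) ≠ 0 ∧ w k + t * (v - w k) ≠ z k ∧
      ‖w k - z k‖ / ‖w k + t * (v - w k) - z k‖ < 2 ∧
      (Fpp P (a k) (z k) (w k + t * (v - w k)) * (v - w k) ^ 2).re < -(2 * c) := by
  set c : ℝ := -(Fpp P α p w0 * (v - w0) ^ 2).re / 4 with hc
  have hc0 : 0 < c := by rw [hc]; linarith
  have hne : w0 - p ≠ 0 := sub_ne_zero.mpr hw0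
  have hyc : Continuous fun x : (ℝ × ℂ × ℂ) × ℝ => x.1.2.2 + x.2 * (v - x.1.2.2) := by fun_prop
  have hy0 : w0 + ((0 : ℝ) : ℂ) * (v - w0) = w0 := by simp
  have ev : ∀ᶠ x in 𝓝 (((α, p, w0) : ℝ × ℂ × ℂ), (0 : ℝ)),
      P.eval (x.1.2.2 + x.2 * (v - x.1.2.2)) ≠ 0 ∧
      (x.1.2.2 + x.2 * (v - x.1.2.2)) - x.1.2.1 ≠ 0 ∧
      ‖x.1.2.2 - x.1.2.1‖ / ‖x.1.2.2 + x.2 * (v - x.1.2.2) - x.1.2.1‖ < 2 ∧
      (Fpp P x.1.1 x.1.2.1 (x.1.2.2 + x.2 * (v - x.1.2.2)) * (v - x.1.2.2) ^ 2).re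
        < -(2 * c) := by
    refine Eventually.and ?_ (Eventually.and ?_ (Eventually.and ?_ ?_))
    · have h1 : ContinuousAt (fun x : (ℝ × ℂ × ℂ) × ℝ =>
          P.eval (x.1.2.2 + x.2 * (v - x.1.2.2))) (((α, p, w0) : ℝ × ℂ × ℂ), (0 : ℝ)) :=
        (P.continuous.comp hyc).continuousAt
      refine h1.eventually_ne ?_
      simpa using hP
    · have h1 : ContinuousAt (fun x : (ℝ × ℂ × ℂ) × ℝ =>
          (x.1.2.2 + x.2 * (v - x.1.2.2)) - x.1.2.1) (((α, p, w0) : ℝ × ℂ × ℂ), (0 : ℝ)) := by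
        fun_prop
      refine h1.eventually_ne ?_
      simpa using hne
    · have h1 : ContinuousAt (fun x : (ℝ × ℂ × ℂ) × ℝ =>
          ‖x.1.2.2 - x.1.2.1‖ / ‖x.1.2.2 + x.2 * (v - x.1.2.2) - x.1.2.1‖)
          (((α, p, w0) : ℝ × ℂ × ℂ), (0 : ℝ)) := by
        refine ContinuousAt.div (by fun_prop) (by fun_prop) ?_
        simpa using hne
      refine h1.eventually_lt continuousAt_const ?_
      simp only [Complex.ofReal_zero, zero_mul, add_zero]
      rw [div_self (norm_ne_zero_iff.mpr hne)]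
      norm_num
    · have h1 : ContinuousAt (fun x : (ℝ × ℂ × ℂ) × ℝ =>
          (Fpp P x.1.1 x.1.2.1 (x.1.2.2 + x.2 * (v - x.1.2.2)) * (v - x.1.2.2) ^ 2).re)
          (((α, p, w0) : ℝ × ℂ × ℂ), (0 : ℝ)) := by
        have h2 : ContinuousAt (fun x : (ℝ × ℂ × ℂ) × ℝ =>
            Fpp P x.1.1 x.1.2.1 (x.1.2.2 + x.2 * (v - x.1.2.2)))
            (((α, p, w0) : ℝ × ℂ × ℂ), (0 : ℝ)) := by
          refine ContinuousAt.comp (f := fun x : (ℝ × ℂ × ℂ) × ℝ =>
            ((x.1.1, x.1.2.1, x.1.2.2 + x.2 * (v - x.1.2.2)) : ℝ × ℂ × ℂ))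
            (g := fun x : ℝ × ℂ × ℂ => Fpp P x.1 x.2.1 x.2.2) ?_ (by fun_prop)
          simp only [Complex.ofReal_zero, zero_mul, add_zero]
          exact continuousAt_Fpp hP hw0
        exact Complex.continuous_re.continuousAt.comp (h2.mul (by fun_prop))
      refine h1.eventually_lt continuousAt_const ?_
      simp only [Complex.ofReal_zero, zero_mul, add_zero]
      rw [hc]
      linarith
  rw [nhds_prod_eq] at ev
  obtain ⟨pa, hpa, pb, hpb, hab⟩ := eventually_prod_iff.mp ev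
  obtain ⟨δ, hδ0, hδ⟩ := Metric.eventually_nhds_iff.mp hpb
  refine ⟨min (δ / 2) 1, c, by positivity, min_le_right _ _, hc0, ?_⟩
  have hx : Tendsto (fun k => ((a k, z k, w k) : ℝ × ℂ × ℂ)) l (𝓝 (α, p, w0)) :=
    hα.prodMk_nhds (hz.prodMk_nhds hw)
  filter_upwards [hx.eventually hpa] with k hk t ht
  have ht' : pb t := by
    apply hδ
    rw [Real.dist_eq, sub_zero, abs_of_nonneg ht.1]
    have := ht.2.trans (min_le_left _ _)
    linarith
  obtain ⟨h1, h2, h3, h4⟩ := hab hk ht'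
  exact ⟨h1, sub_ne_zero.mp h2, h3, h4⟩

/-- limit of the remainder integral -/
theorem tendsto_remInt {ι : Type*} {l : Filter ι} {P : ℂ[X]} {α : ℝ} {p w0 : ℂ}
    (hP : P.eval w0 ≠ 0) (hw0 : w0 ≠ p)
    {a : ι → ℝ} {z w τ : ι → ℂ}
    (hα : Tendsto a l (𝓝 α)) (hz : Tendsto z l (𝓝 p)) (hw : Tendsto w l (𝓝 w0))
    (hτ : Tendsto τ l (𝓝 0)) :
    Tendsto (fun k => remInt P (a k) (z k) (w k) (τ k)) l (𝓝 (Fpp P α p w0 / 2)) := by
  rw [Metric.tendsto_nhds]
  intro ε hε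
  have hcF := continuousAt_Fpp (P := P) (α := α) hP hw0
  have ev1 : ∀ᶠ x in 𝓝 ((α, p, w0) : ℝ × ℂ × ℂ),
      P.eval x.2.2 ≠ 0 ∧ x.2.2 - x.2.1 ≠ 0 ∧ ‖Fpp P x.1 x.2.1 x.2.2 - Fpp P α p w0‖ < ε / 2 := by
    refine Eventually.and ?_ (Eventually.and ?_ ?_)
    · have h1 : ContinuousAt (fun x : ℝ × ℂ × ℂ => P.eval x.2.2) ((α, p, w0) : ℝ × ℂ × ℂ) :=
        (P.continuous.comp (by fun_prop)).continuousAt
      exact h1.eventually_ne hP
    · have h1 : ContinuousAt (fun x : ℝ × ℂ × ℂ => x.2.2 - x.2.1) ((α, p, w0) : ℝ × ℂ × ℂ) := by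
        fun_prop
      exact h1.eventually_ne (sub_ne_zero.mpr hw0)
    · have := (Metric.tendsto_nhds.mp hcF) (ε / 2) (by positivity)
      filter_upwards [this] with x hx
      rwa [dist_eq_norm] at hx
  have hyc : Continuous fun x : (ℝ × ℂ × ℂ × ℂ) × ℝ =>
      ((x.1.1, x.1.2.1, x.1.2.2.1 + x.2 * x.1.2.2.2) : ℝ × ℂ × ℂ) := by fun_prop
  have ev2 : ∀ᶠ q : ℝ × ℂ × ℂ × ℂ in 𝓝 ((α, p, w0, 0) : ℝ × ℂ × ℂ × ℂ),
      ∀ x ∈ Icc (0 : ℝ) 1,
      P.eval (q.2.2.1 + (x : ℂ) * q.2.2.2) ≠ 0 ∧ (q.2.2.1 + (x : ℂ) * q.2.2.2) - q.2.1 ≠ 0 ∧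
      ‖Fpp P q.1 q.2.1 (q.2.2.1 + (x : ℂ) * q.2.2.2) - Fpp P α p w0‖ < ε / 2 := by
    refine isCompact_Icc.eventually_forall_of_forall_eventually fun x _ => ?_
    have h1 : Tendsto (fun x : (ℝ × ℂ × ℂ × ℂ) × ℝ =>
        ((x.1.1, x.1.2.1, x.1.2.2.1 + x.2 * x.1.2.2.2) : ℝ × ℂ × ℂ))
        (𝓝 (((α, p, w0, 0) : ℝ × ℂ × ℂ × ℂ), x)) (𝓝 (α, p, w0)) := by
      have := hyc.tendsto (((α, p, w0, 0) : ℝ × ℂ × ℂ × ℂ), x)
      simpa using this
    exact h1.eventually ev1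
  have hq : Tendsto (fun k => ((a k, z k, w k, τ k) : ℝ × ℂ × ℂ × ℂ)) l (𝓝 (α, p, w0, 0)) :=
    hα.prodMk_nhds (hz.prodMk_nhds (hw.prodMk_nhds hτ))
  filter_upwards [hq.eventually ev2] with k hk
  have hP' : ∀ x ∈ Icc (0 : ℝ) 1, P.eval (w k + x * τ k) ≠ 0 := fun x hx => (hk x hx).1
  have hz' : ∀ x ∈ Icc (0 : ℝ) 1, w k + x * τ k ≠ z k :=
    fun x hx => sub_ne_zero.mp (hk x hx).2.1
  have hco := remInt_cont (α := a k) hP' hz'
  have hii : IntervalIntegrable (fun x : ℝ => (1 - (x : ℂ)) * Fpp P (a k) (z k) (w k + x * τ k))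
      volume 0 1 := by
    refine ContinuousOn.intervalIntegrable ?_
    rw [uIcc_of_le zero_le_one]
    exact hco
  have hii2 : IntervalIntegrable (fun x : ℝ => (1 - (x : ℂ)) * Fpp P α p w0) volume 0 1 :=
    Continuous.intervalIntegrable (by fun_prop) _ _
  have e1 : remInt P (a k) (z k) (w k) (τ k) - Fpp P α p w0 / 2 =
      ∫ x in (0 : ℝ)..1, (1 - (x : ℂ)) * (Fpp P (a k) (z k) (w k + x * τ k) - Fpp P α p w0) := by
    unfold remInt
    have e2 : Fpp P α p w0 / 2 = ∫ x in (0 : ℝ)..1, (1 - (x : ℂ)) * Fpp P α p w0 := by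
      rw [intervalIntegral.integral_mul_const, integral_one_sub]
      ring
    rw [e2, ← intervalIntegral.integral_sub hii hii2]
    refine intervalIntegral.integral_congr fun x _ => ?_
    ring
  rw [dist_eq_norm, e1]
  have h3 := intervalIntegral.norm_integral_le_of_norm_le_const (a := (0:ℝ)) (b := 1) (C := ε / 2)
    (f := fun x : ℝ => (1 - (x : ℂ)) * (Fpp P (a k) (z k) (w k + x * τ k) - Fpp P α p w0)) (by
      intro x hx
      rw [uIoc_of_le zero_le_one] at hx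
      have hx' : x ∈ Icc (0 : ℝ) 1 := ⟨hx.1.le, hx.2⟩
      rw [norm_mul]
      have h4 : ‖(1 - (x : ℂ))‖ ≤ 1 := by
        have : (1 - (x : ℂ)) = ((1 - x : ℝ) : ℂ) := by push_cast; ring
        rw [this, Complex.norm_real, Real.norm_eq_abs, abs_le]
        constructor <;> linarith [hx.1, hx.2]
      calc ‖(1 - (x : ℂ))‖ * ‖Fpp P (a k) (z k) (w k + x * τ k) - Fpp P α p w0‖
          ≤ 1 * (ε / 2) := mul_le_mul h4 (hk x hx').2.2.le (norm_nonneg _) (by norm_num)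
        _ = ε / 2 := one_mul _)
  refine lt_of_le_of_lt h3 ?_
  rw [sub_zero, abs_one, mul_one]
  linarith

theorem measurable_ker_seg (P : ℂ[X]) (j n m : ℕ) (z a u : ℂ) :
    Measurable fun t : ℝ => ker P j n m z (a + t * u) := by
  unfold ker
  have h1 : Measurable fun y : ℝ => P.eval (a + y * u) :=
    (P.continuous.comp (by fun_prop)).measurable
  exact (h1.pow_const n).div (Continuous.measurable (by fun_prop))

theorem ker_ne_zero {P : ℂ[X]} (j n m : ℕ) {z w : ℂ} (hP : P.eval w ≠ 0) (hw : w ≠ z) :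
    ker P j n m z w ≠ 0 :=
  div_ne_zero (pow_ne_zero _ hP) (pow_ne_zero _ (sub_ne_zero.mpr hw))

/-- GAUSSIAN LIMIT of a segment starting in the moving saddle. -/
theorem gauss_segment {ι : Type*} {l : Filter ι} [l.IsCountablyGenerated] {P : ℂ[X]} {α : ℝ}
    {p w0 v : ℂ} (j : ℕ) (hP : P.eval w0 ≠ 0) (hw0 : w0 ≠ p)
    (hneg : (Fpp P α p w0 * (v - w0) ^ 2).re < 0)
    (hlow : ∀ t ∈ Ioc (0 : ℝ) 1, Low P α p w0 (w0 + t * (v - w0)))
    {n m : ι → ℕ} {z w : ι → ℂ}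
    (hn : Tendsto n l atTop) (hα : Tendsto (fun k => (m k : ℝ) / n k) l (𝓝 α))
    (hz : Tendsto z l (𝓝 p)) (hw : Tendsto w l (𝓝 w0))
    (hs : ∀ᶠ k in l, Fp P ((m k : ℝ) / n k) (z k) (w k) = 0) :
    Tendsto (fun k => (Real.sqrt (n k) : ℂ) * segInt (ker P j (n k) (m k) (z k)) (w k) v /
      ker P j (n k) (m k) (z k) (w k)) l
      (𝓝 ((v - w0) * ∫ s in Ioi (0 : ℝ),
        Complex.exp (Fpp P α p w0 / 2 * (v - w0) ^ 2 * (s : ℂ) ^ 2))) := by
  obtain ⟨δ, c, hδ0, hδ1, hc0, hloc⟩ := local_uniform hP hw0 hneg hα hz hw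
  obtain ⟨q, C, hq0, hq1, hC0, hfar⟩ := far_bound (δ := δ) (a := w0) (b := v) j hP hw0
    (fun t ht => hlow t ⟨lt_of_lt_of_le hδ0 ht.1, ht.2⟩) hn hα hz hw hw (tendsto_const_nhds (x := v))
  have hnpos : ∀ᶠ k in l, 0 < n k := hn.eventually_gt_atTop 0
  have hPk : ∀ᶠ k in l, P.eval (w k) ≠ 0 := (P.continuous.tendsto w0 |>.comp hw).eventually_ne hP
  have hwk : ∀ᶠ k in l, w k - z k ≠ 0 := (hw.sub hz).eventually_ne (sub_ne_zero.mpr hw0)
  -- the normalised integrand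
  set f : ι → ℝ → ℂ := fun k t =>
    ker P j (n k) (m k) (z k) (w k + t * (v - w k)) / ker P j (n k) (m k) (z k) (w k) with hf
  -- exact local form
  have hform : ∀ᶠ k in l, ∀ t ∈ Icc (0 : ℝ) δ, f k t =
      ((w k - z k) / (w k + t * (v - w k) - z k)) ^ j *
        Complex.exp (n k * (t * (v - w k)) ^ 2 *
          remInt P ((m k : ℝ) / n k) (z k) (w k) (t * (v - w k))) := by
    filter_upwards [hloc, hnpos, hPk, hwk, hs] with k hk hnk hPk hwk hsk t ht
    have hx : ∀ x ∈ Icc (0 : ℝ) 1, x * t ∈ Icc (0 : ℝ) δ := fun x hx =>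
      ⟨mul_nonneg hx.1 ht.1, by nlinarith [hx.1, hx.2, ht.1, ht.2]⟩
    have e : ∀ x : ℝ, w k + (x : ℂ) * (t * (v - w k)) = w k + ((x * t : ℝ) : ℂ) * (v - w k) := by
      intro x
      push_cast
      ring
    have h1 := ker_local j (P := P) (m := m k) hnk (z := z k) (w := w k) (τ := t * (v - w k))
      (fun x hx' => by rw [e]; exact (hk _ (hx x hx')).1)
      (fun x hx' => by rw [e]; exact (hk _ (hx x hx')).2.1) hsk
    have h2 := ker_ne_zero (P := P) j (n k) (m k) hPk (sub_ne_zero.mp hwk)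
    simp only [hf]
    rw [h1]
    unfold remInt
    field_simp
  set c2 : ℝ := min c (-Real.log q) with hc2
  have hlq : 0 < -Real.log q := by
    have := Real.log_neg hq0 hq1
    linarith
  have hc20 : 0 < c2 := lt_min hc0 hlq
  set K : ℝ := max (2 ^ j) C with hK
  have hK0 : 0 < K := lt_max_of_lt_right hC0
  -- the bound
  have hbound : ∀ᶠ k in l, ∀ t ∈ Ioc (0 : ℝ) 1, ‖f k t‖ ≤ K * Real.exp (-c2 * (n k) * t ^ 2) := by
    filter_upwards [hloc, hnpos, hPk, hwk, hs, hform, hfar] with k hk hnk hPk hwk hsk hfk hfa t ht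
    have hker : 0 < ‖ker P j (n k) (m k) (z k) (w k)‖ :=
      norm_pos_iff.mpr (ker_ne_zero j (n k) (m k) hPk (sub_ne_zero.mp hwk))
    rcases le_or_gt t δ with htδ | htδ
    · have ht' : t ∈ Icc (0 : ℝ) δ := ⟨ht.1.le, htδ⟩
      rw [hfk t ht', norm_mul, Complex.norm_exp, norm_pow, norm_div]
      have hx : ∀ x ∈ Icc (0 : ℝ) 1, x * t ∈ Icc (0 : ℝ) δ := fun x hx =>
        ⟨mul_nonneg hx.1 ht'.1, by nlinarith [hx.1, hx.2, ht'.1, ht'.2]⟩
      have e : ∀ x : ℝ, w k + (x : ℂ) * (t * (v - w k)) = w k + ((x * t : ℝ) : ℂ) * (v - w k) := by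
        intro x
        push_cast
        ring
      have h1 : ((v - w k) ^ 2 *
          remInt P ((m k : ℝ) / n k) (z k) (w k) (t * (v - w k))).re ≤ -c := by
        refine re_remInt_le
          (fun x hx' => by rw [e]; exact (hk _ (hx x hx')).1)
          (fun x hx' => by rw [e]; exact (hk _ (hx x hx')).2.1)
          (fun x hx' => ?_)
        rw [e]
        exact (hk _ (hx x hx')).2.2.2.le
      have e2 : (n k : ℂ) * (t * (v - w k)) ^ 2 *
          remInt P ((m k : ℝ) / n k) (z k) (w k) (t * (v - w k)) =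
          ((n k * t ^ 2 : ℝ) : ℂ) * ((v - w k) ^ 2 *
            remInt P ((m k : ℝ) / n k) (z k) (w k) (t * (v - w k))) := by
        push_cast
        ring
      rw [e2, Complex.re_ofReal_mul]
      have h2 : (n k * t ^ 2 : ℝ) * ((v - w k) ^ 2 *
            remInt P ((m k : ℝ) / n k) (z k) (w k) (t * (v - w k))).re ≤
          -c2 * (n k) * t ^ 2 := by
        have h3 : c2 ≤ c := min_le_left _ _
        have h4 : (0 : ℝ) ≤ n k * t ^ 2 := by positivity
        nlinarith [mul_le_mul_of_nonneg_left h1 h4, mul_le_mul_of_nonneg_left h3 h4]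
      have h5 : (‖w k - z k‖ / ‖w k + t * (v - w k) - z k‖) ^ j ≤ K :=
        (pow_le_pow_left₀ (by positivity) (hk t ht').2.2.1.le j).trans (le_max_left _ _)
      exact mul_le_mul h5 (Real.exp_le_exp.mpr h2) (Real.exp_pos _).le hK0.le
    · have ht' : t ∈ Icc δ (1 : ℝ) := ⟨htδ.le, ht.2⟩
      have h1 := hfa t ht'
      simp only [hf]
      rw [norm_div, div_le_iff₀ hker]
      refine h1.trans ?_
      refine mul_le_mul_of_nonneg_right ?_ hker.le
      have h2 : q ^ (n k) ≤ Real.exp (-c2 * (n k) * t ^ 2) := by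
        rw [← Real.exp_log hq0, ← Real.exp_nat_mul, Real.exp_le_exp]
        have h3 : c2 ≤ -Real.log q := min_le_right _ _
        have h4 : t ^ 2 ≤ 1 := by nlinarith [ht.1, ht.2]
        have h5 : (0 : ℝ) ≤ n k := Nat.cast_nonneg _
        have h6 : c2 * t ^ 2 ≤ -Real.log q := by nlinarith
        nlinarith [mul_le_mul_of_nonneg_left h6 h5]
      exact mul_le_mul (le_max_right _ _) h2 (by positivity) hK0.le
  -- the scaled limit
  have hlam : ∀ᶠ k in l, (0 : ℝ) < 1 / Real.sqrt (n k) := by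
    filter_upwards [hnpos] with k hk
    have : (0 : ℝ) < n k := by exact_mod_cast hk
    positivity
  have hsqrt : Tendsto (fun k => Real.sqrt (n k)) l atTop :=
    Real.tendsto_sqrt_atTop.comp (tendsto_natCast_atTop_atTop.comp hn)
  have hlim : Tendsto (fun k => (1 : ℝ) / (1 / Real.sqrt (n k))) l atTop := by
    simpa using hsqrt
  have hgi : IntegrableOn (fun s : ℝ => K * Real.exp (-c2 * s ^ 2)) (Ioi 0) :=
    ((integrable_exp_neg_mul_sq hc20).const_mul K).integrableOn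
  have hpt : ∀ s ∈ Ioi (0 : ℝ), Tendsto (fun k => f k (1 / Real.sqrt (n k) * s)) l
      (𝓝 (Complex.exp (Fpp P α p w0 / 2 * (v - w0) ^ 2 * (s : ℂ) ^ 2))) := by
    intro s hs0
    have hs0' : (0 : ℝ) < s := hs0
    have ht0 : Tendsto (fun k => 1 / Real.sqrt (n k) * s) l (𝓝 0) := by
      have := (tendsto_inv_atTop_zero.comp hsqrt).mul_const s
      simpa [Function.comp_def, one_div] using this
    have hev : ∀ᶠ k in l, 1 / Real.sqrt (n k) * s ∈ Icc (0 : ℝ) δ := by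
      filter_upwards [ht0.eventually (gt_mem_nhds hδ0), hlam] with k h1 h2
      exact ⟨by positivity, h1.le⟩
    have hτ : Tendsto (fun k => ((1 / Real.sqrt (n k) * s : ℝ) : ℂ) * (v - w k)) l (𝓝 0) := by
      have h1 := (Complex.continuous_ofReal.tendsto 0).comp ht0
      have h2 := h1.mul (hw.const_sub v)
      simpa [Function.comp_def] using h2
    have hrem := tendsto_remInt hP hw0 hα hz hw hτ
    have hexp : Tendsto (fun k => Complex.exp ((s : ℂ) ^ 2 * (v - w k) ^ 2 *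
        remInt P ((m k : ℝ) / n k) (z k) (w k)
          (((1 / Real.sqrt (n k) * s : ℝ) : ℂ) * (v - w k)))) l
        (𝓝 (Complex.exp (Fpp P α p w0 / 2 * (v - w0) ^ 2 * (s : ℂ) ^ 2))) := by
      refine (Complex.continuous_exp.tendsto _).comp ?_
      have h2 := (((hw.const_sub v).pow 2).const_mul ((s : ℂ) ^ 2)).mul hrem
      have h3 : (s : ℂ) ^ 2 * (v - w0) ^ 2 * (Fpp P α p w0 / 2) =
          Fpp P α p w0 / 2 * (v - w0) ^ 2 * (s : ℂ) ^ 2 := by ring
      rw [h3] at h2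
      exact h2
    have hamp : Tendsto (fun k => ((w k - z k) /
        (w k + ((1 / Real.sqrt (n k) * s : ℝ) : ℂ) * (v - w k) - z k)) ^ j) l (𝓝 1) := by
      have h1 : Tendsto (fun k => w k + ((1 / Real.sqrt (n k) * s : ℝ) : ℂ) * (v - w k) - z k) l
          (𝓝 (w0 + 0 - p)) := (hw.add hτ).sub hz
      have h2 := ((hw.sub hz).div h1 (by simpa using sub_ne_zero.mpr hw0)).pow j
      have h3 : ((w0 - p) / (w0 + 0 - p)) ^ j = 1 := by
        rw [add_zero, div_self (sub_ne_zero.mpr hw0), one_pow]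
      rw [h3] at h2
      exact h2
    have hprod := hamp.mul hexp
    rw [one_mul] at hprod
    refine hprod.congr' ?_
    filter_upwards [hform, hev, hnpos] with k h1 h2 h3
    rw [h1 _ h2]
    congr 2
    have h4 : (0 : ℝ) < n k := by exact_mod_cast h3
    have h5 : ((n k : ℕ) : ℂ) * (((1 / Real.sqrt (n k) * s : ℝ) : ℂ)) ^ 2 = (s : ℂ) ^ 2 := by
      have : ((n k : ℕ) : ℝ) * (1 / Real.sqrt (n k) * s) ^ 2 = s ^ 2 := by
        rw [mul_pow, div_pow, Real.sq_sqrt h4.le]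
        field_simp
      exact_mod_cast this
    rw [mul_pow, ← mul_assoc ((n k : ℕ) : ℂ), h5]
  have hscaled := scaled_tendsto (f := f) (lam := fun k => 1 / Real.sqrt (n k)) (r := fun _ => 1)
    (q := fun s => Complex.exp (Fpp P α p w0 / 2 * (v - w0) ^ 2 * (s : ℂ) ^ 2))
    (g := fun s => K * Real.exp (-c2 * s ^ 2)) hlam (Eventually.of_forall fun _ => one_pos) hlim
    hgi (fun s _ => by positivity) hpt
    (by
      filter_upwards [hbound, hnpos] with k hk hnk t ht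
      refine (hk t ht).trans (le_of_eq ?_)
      have h4 : (0 : ℝ) < n k := by exact_mod_cast hnk
      congr 2
      rw [div_pow, div_pow, Real.sq_sqrt h4.le]
      field_simp)
    (Eventually.of_forall fun k => by
      have h1 := (measurable_ker_seg P j (n k) (m k) (z k) (w k) (v - w k)).div_const
        (ker P j (n k) (m k) (z k) (w k))
      have h2 : Measurable fun s : ℝ => 1 / Real.sqrt (n k) * s := by fun_prop
      exact (h1.comp h2).aestronglyMeasurable)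
  have hfinal := (hw.const_sub v).mul hscaled
  refine hfinal.congr' ?_
  filter_upwards [hnpos] with k hnk
  have h4 : (0 : ℝ) < n k := by exact_mod_cast hnk
  unfold segInt
  simp only [hf]
  rw [intervalIntegral.integral_div]
  push_cast
  rw [one_div, inv_inv]
  ring

end Pool.Agent.Shadow69
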