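import Pool.Agent.Shadow69.Far

/-! The local part of the contour: exact exponential form of the integrand near a saddle,
and the Gaussian limit along a ray from a moving saddle. -/

set_option autoImplicit false

namespace Pool.Agent.Shadow69

open Polynomial Filter Topology Set MeasureTheory intervalIntegral Pool.Agent.Shadow75

/-- first derivative in `w` of `log P(w) - α log (w - z)` -/
noncomputable def Fp (P : ℂ[X]) (α : ℝ) (z w : ℂ) : ℂ :=
  (derivative P).eval w / P.eval w - α / (w - z)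

/-- second derivative in `w` of `log P(w) - α log (w - z)` -/
noncomputable def Fpp (P : ℂ[X]) (α : ℝ) (z w : ℂ) : ℂ :=
  ((derivative (derivative P)).eval w * P.eval w - (derivative P).eval w ^ 2) / P.eval w ^ 2 +
    α / (w - z) ^ 2

theorem hasDerivAt_Fp {P : ℂ[X]} {α : ℝ} {z w : ℂ} (hP : P.eval w ≠ 0) (hw : w ≠ z) :
    HasDerivAt (Fp P α z) (Fpp P α z w) w := by
  have hw' : w - z ≠ 0 := sub_ne_zero.mpr hw
  have h1 := ((derivative P).hasDerivAt w).div (P.hasDerivAt w) hP
  have h2 : HasDerivAt (fun w : ℂ => (α : ℂ) / (w - z)) (-(α : ℂ) / (w - z) ^ 2) w := by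
    have h3 := ((hasDerivAt_id w).sub_const z).inv hw'
    have h4 := h3.const_mul (α : ℂ)
    simp only [id] at h4
    refine (h4.congr_deriv ?_).congr_of_eventuallyEq ?_
    · field_simp
    · exact Eventually.of_forall fun w => by simp [div_eq_mul_inv]
  have h5 := h1.sub h2
  refine h5.congr_deriv ?_
  unfold Fpp
  ring

theorem continuousAt_Fpp {P : ℂ[X]} {α : ℝ} {z w : ℂ} (hP : P.eval w ≠ 0) (hw : w ≠ z) :
    ContinuousAt (fun x : ℝ × ℂ × ℂ => Fpp P x.1 x.2.1 x.2.2) (α, z, w) := by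
  have hw' : w - z ≠ 0 := sub_ne_zero.mpr hw
  unfold Fpp
  have hc : ∀ Q : ℂ[X], ContinuousAt (fun x : ℝ × ℂ × ℂ => Q.eval x.2.2) (α, z, w) := fun Q =>
    (Q.continuous.comp (by fun_prop)).continuousAt
  have hα : ContinuousAt (fun x : ℝ × ℂ × ℂ => (x.1 : ℂ)) (α, z, w) :=
    (Complex.continuous_ofReal.comp continuous_fst).continuousAt
  refine ContinuousAt.add (ContinuousAt.div ?_ ((hc P).pow 2) (pow_ne_zero 2 hP))
    (ContinuousAt.div hα (by fun_prop) (pow_ne_zero 2 hw'))
  exact ((hc _).mul (hc P)).sub ((hc _).pow 2)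

theorem continuousAt_Fp {P : ℂ[X]} {α : ℝ} {z w : ℂ} (hP : P.eval w ≠ 0) (hw : w ≠ z) :
    ContinuousAt (Fp P α z) w := (hasDerivAt_Fp hP hw).continuousAt

theorem continuousAt_Fpp' {P : ℂ[X]} {α : ℝ} {z w : ℂ} (hP : P.eval w ≠ 0) (hw : w ≠ z) :
    ContinuousAt (Fpp P α z) w :=
  ContinuousAt.comp (f := fun w : ℂ => ((α, z, w) : ℝ × ℂ × ℂ)) (continuousAt_Fpp hP hw)
    (by fun_prop)

/-- Taylor formula with remainder for `Fp` with a zero at `w`. -/
theorem integral_Fp_eq {P : ℂ[X]} {α : ℝ} {z w τ : ℂ}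
    (hP : ∀ x ∈ Icc (0 : ℝ) 1, P.eval (w + x * τ) ≠ 0)
    (hz : ∀ x ∈ Icc (0 : ℝ) 1, w + x * τ ≠ z) (hs : Fp P α z w = 0) :
    ∫ x in (0 : ℝ)..1, Fp P α z (w + x * τ) =
      τ * ∫ x in (0 : ℝ)..1, (1 - (x : ℂ)) * Fpp P α z (w + x * τ) := by
  have hl : ∀ x : ℝ, HasDerivAt (fun x : ℝ => w + (x : ℂ) * τ) τ x := by
    intro x
    have h := ((Complex.ofRealCLM.hasDerivAt (x := x)).mul_const τ).const_add w
    simpa using h
  have h1 : ∀ x ∈ uIcc (0 : ℝ) 1, HasDerivAt (fun x : ℝ => Fp P α z (w + x * τ))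
      (τ * Fpp P α z (w + x * τ)) x := by
    intro x hx
    rw [uIcc_of_le zero_le_one] at hx
    have := (hasDerivAt_Fp (α := α) (hP x hx) (hz x hx)).scomp x (hl x)
    simpa [smul_eq_mul, Function.comp_def] using this
  have h2 : ∀ x ∈ uIcc (0 : ℝ) 1, HasDerivAt (fun x : ℝ => ((x : ℂ) - 1)) 1 x := by
    intro x _
    simpa using (Complex.ofRealCLM.hasDerivAt (x := x)).sub_const (1 : ℂ)
  have hcont : ContinuousOn (fun x : ℝ => Fpp P α z (w + x * τ)) (Icc (0 : ℝ) 1) := by
    intro x hx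
    refine ContinuousAt.continuousWithinAt ?_
    exact ContinuousAt.comp (f := fun x : ℝ => w + (x : ℂ) * τ)
      (continuousAt_Fpp' (hP x hx) (hz x hx)) (by fun_prop)
  have h3 := intervalIntegral.integral_mul_deriv_eq_deriv_mul (a := (0 : ℝ)) (b := 1)
    (u := fun x : ℝ => Fp P α z (w + x * τ)) (v := fun x : ℝ => ((x : ℂ) - 1))
    (u' := fun x : ℝ => τ * Fpp P α z (w + x * τ)) (v' := fun _ => 1) h1 h2
    (by
      refine ContinuousOn.intervalIntegrable ?_
      rw [uIcc_of_le zero_le_one]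
      exact continuousOn_const.mul hcont)
    (by exact intervalIntegrable_const)
  simp only [mul_one, Complex.ofReal_one, sub_self, mul_zero, Complex.ofReal_zero, zero_sub,
    mul_neg, zero_mul, add_zero, hs, neg_zero] at h3
  rw [h3, ← intervalIntegral.integral_neg, ← intervalIntegral.integral_const_mul]
  refine intervalIntegral.integral_congr fun x _ => ?_
  ring

/-- Exact exponential form of the integrand near a saddle. -/
theorem ker_local {P : ℂ[X]} (j : ℕ) {n m : ℕ} (hn : 0 < n) {z w τ : ℂ}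
    (hP : ∀ x ∈ Icc (0 : ℝ) 1, P.eval (w + x * τ) ≠ 0)
    (hz : ∀ x ∈ Icc (0 : ℝ) 1, w + x * τ ≠ z) (hs : Fp P ((m : ℝ) / n) z w = 0) :
    ker P j n m z (w + τ) = ker P j n m z w * ((w - z) / (w + τ - z)) ^ j *
      Complex.exp (n * τ ^ 2 *
        ∫ x in (0 : ℝ)..1, (1 - (x : ℂ)) * Fpp P ((m : ℝ) / n) z (w + x * τ)) := by
  have hnC : (n : ℂ) ≠ 0 := by exact_mod_cast hn.ne'
  have hl : ∀ x : ℝ, HasDerivAt (fun x : ℝ => w + (x : ℂ) * τ) τ x := by
    intro x
    have h := ((Complex.ofRealCLM.hasDerivAt (x := x)).mul_const τ).const_add w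
    simpa using h
  have hcont : ContinuousOn (fun x : ℝ => Fp P ((m : ℝ) / n) z (w + x * τ)) (Icc (0 : ℝ) 1) := by
    intro x hx
    refine ContinuousAt.continuousWithinAt ?_
    exact ContinuousAt.comp (f := fun x : ℝ => w + (x : ℂ) * τ)
      (continuousAt_Fp (hP x hx) (hz x hx)) (by fun_prop)
  -- the function is constant
  set φ : ℝ → ℂ := fun x => n * τ * ∫ y in (0 : ℝ)..x, Fp P ((m : ℝ) / n) z (w + y * τ) with hφ
  have hφd : ∀ x ∈ Ico (0 : ℝ) 1, HasDerivWithinAt φ
      (n * τ * Fp P ((m : ℝ) / n) z (w + x * τ)) (Ici x) x := by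
    intro x hx
    have hx' : x ∈ Icc (0 : ℝ) 1 := ⟨hx.1, hx.2.le⟩
    have hint : IntervalIntegrable (fun y : ℝ => Fp P ((m : ℝ) / n) z (w + y * τ)) volume 0 x := by
      refine ContinuousOn.intervalIntegrable ?_
      rw [uIcc_of_le hx.1]
      exact hcont.mono (Icc_subset_Icc_right hx.2.le)
    have hca : ContinuousAt (fun y : ℝ => Fp P ((m : ℝ) / n) z (w + y * τ)) x :=
      ContinuousAt.comp (f := fun x : ℝ => w + (x : ℂ) * τ)
        (continuousAt_Fp (hP x hx') (hz x hx')) (by fun_prop)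
    have hmeas : StronglyMeasurableAtFilter (fun y : ℝ => Fp P ((m : ℝ) / n) z (w + y * τ))
        (𝓝 x) := by
      have hm : Measurable (fun y : ℝ => Fp P ((m : ℝ) / n) z (w + y * τ)) := by
        unfold Fp
        have h1 : ∀ Q : ℂ[X], Measurable fun y : ℝ => Q.eval (w + y * τ) := fun Q =>
          (Q.continuous.comp (by fun_prop)).measurable
        exact ((h1 _).div (h1 _)).sub
          (measurable_const.div (Continuous.measurable (by fun_prop)))
      exact hm.stronglyMeasurable.stronglyMeasurableAtFilter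
    have h4 := intervalIntegral.integral_hasDerivAt_right hint hmeas hca
    exact (h4.const_mul (n * τ : ℂ)).hasDerivWithinAt
  have hφc : ContinuousOn φ (Icc (0 : ℝ) 1) := by
    refine ContinuousOn.mul continuousOn_const ?_
    have := intervalIntegral.continuousOn_primitive_interval (a := (0 : ℝ)) (b := 1)
      (f := fun y : ℝ => Fp P ((m : ℝ) / n) z (w + y * τ)) (μ := volume) (by
        rw [uIcc_of_le zero_le_one]
        exact hcont.integrableOn_Icc)
    rwa [uIcc_of_le zero_le_one] at this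
  set G : ℝ → ℂ := fun x => P.eval (w + x * τ) ^ n / (w + x * τ - z) ^ m with hG
  have hGd : ∀ x ∈ Icc (0 : ℝ) 1, HasDerivAt G
      (n * τ * Fp P ((m : ℝ) / n) z (w + x * τ) * G x) x := by
    intro x hx
    have hz' : w + x * τ - z ≠ 0 := sub_ne_zero.mpr (hz x hx)
    have h1 : HasDerivAt (fun x : ℝ => P.eval (w + x * τ)) (τ * (derivative P).eval (w + x * τ)) x := by
      have := (P.hasDerivAt (w + x * τ)).scomp x (hl x)
      simpa [smul_eq_mul, Function.comp_def] using this
    have h2 : HasDerivAt (fun x : ℝ => w + x * τ - z) τ x := (hl x).sub_const z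
    have h3 := (h1.fun_pow n).fun_div (h2.fun_pow m) (pow_ne_zero m hz')
    refine h3.congr_deriv ?_
    rw [hG]
    simp only [Fp]
    have hPx := hP x hx
    generalize P.eval (w + x * τ) = A at hPx
    generalize w + x * τ - z = B at hz'
    generalize (derivative P).eval (w + x * τ) = D
    rcases n with _ | n
    · exact absurd rfl hn.ne'
    · rcases m with _ | m
      · simp only [Nat.add_sub_cancel, Nat.cast_zero, zero_div, Complex.ofReal_zero,
          pow_zero, zero_mul, mul_zero, sub_zero, div_one, one_pow, mul_one]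
        rw [pow_succ]
        field_simp
      · simp only [Nat.add_sub_cancel]
        push_cast
        push_cast at hnC
        field_simp
        ring
  have hconst : ∀ x ∈ Icc (0 : ℝ) 1, G x * Complex.exp (-φ x) = G 0 * Complex.exp (-φ 0) := by
    refine constant_of_has_deriv_right_zero ?_ ?_
    · refine ContinuousOn.mul ?_ (Complex.continuous_exp.comp_continuousOn hφc.neg)
      intro x hx
      exact (hGd x hx).continuousAt.continuousWithinAt
    · intro x hx
      have hx' : x ∈ Icc (0 : ℝ) 1 := ⟨hx.1, hx.2.le⟩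
      have h5 := (hGd x hx').hasDerivWithinAt (s := Ici x)
      have h6 := ((hφd x hx).neg).cexp
      refine (h5.mul h6).congr_deriv ?_
      ring
  have h7 := hconst 1 ⟨zero_le_one, le_rfl⟩
  have h8 : φ 0 = 0 := by
    simp [hφ]
  have h9 : φ 1 = n * τ ^ 2 *
        ∫ x in (0 : ℝ)..1, (1 - (x : ℂ)) * Fpp P ((m : ℝ) / n) z (w + x * τ) := by
    rw [hφ]
    simp only
    rw [integral_Fp_eq hP hz hs]
    ring
  rw [h8, neg_zero, Complex.exp_zero, mul_one, h9] at h7
  have h10 : G 1 = G 0 * Complex.exp (n * τ ^ 2 *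
        ∫ x in (0 : ℝ)..1, (1 - (x : ℂ)) * Fpp P ((m : ℝ) / n) z (w + x * τ)) := by
    rw [← h7, mul_assoc, ← Complex.exp_add]
    simp
  simp only [hG, Complex.ofReal_one, one_mul, Complex.ofReal_zero, zero_mul, add_zero] at h10
  have hz1 : w + τ - z ≠ 0 := by
    have := hz 1 ⟨zero_le_one, le_rfl⟩
    simpa using sub_ne_zero.mpr this
  have hz0 : w - z ≠ 0 := by
    have := hz 0 ⟨le_rfl, zero_le_one⟩
    simpa using sub_ne_zero.mpr this
  unfold ker
  rw [pow_add, pow_add, ← div_div, h10, div_pow]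
  field_simp

end Pool.Agent.Shadow69
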