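import Pool.Agent.Shadow69.Gauss
import Pool.Agent.Shadow69.Ends
import Pool.Agent.Shadow75.Root

/-! The one-saddle theorem: no zeros and ratio asymptotics at `(α, p)` if a closed polygon
through a nondegenerate saddle `w0` is strictly lower elsewhere. -/

set_option autoImplicit false

namespace Pool.Agent.Shadow69

open Polynomial Filter Topology Set MeasureTheory intervalIntegral Pool.Agent.Shadow75

theorem cpow_half_re_pos {w : ℂ} (hw : 0 < w.re) : 0 < (w ^ (1 / 2 : ℂ)).re := by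
  have hw0 : w ≠ 0 := by
    intro h
    rw [h] at hw
    simp at hw
  rw [Complex.cpow_def_of_ne_zero hw0, Complex.exp_re]
  refine mul_pos (Real.exp_pos _) (Real.cos_pos_of_mem_Ioo ?_)
  have h1 : (Complex.log w * (1 / 2 : ℂ)).im = w.arg / 2 := by
    have : (1 / 2 : ℂ) = ((1 / 2 : ℝ) : ℂ) := by norm_num
    rw [this, Complex.im_mul_ofReal, Complex.log_im]
    ring
  rw [h1]
  have h2 := Complex.abs_arg_lt_pi_div_two_iff.mpr (Or.inl hw)
  rw [abs_lt] at h2
  constructor <;> linarith [h2.1, h2.2, Real.pi_pos]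

theorem half_gauss_props {c u : ℂ} (h : (c * u ^ 2).re < 0) :
    ∃ g : ℂ, (∫ s in Ioi (0 : ℝ), Complex.exp (c * u ^ 2 * (s : ℂ) ^ 2)) = g ∧ 0 < g.re ∧
      |g.im| < g.re := by
  have hb : 0 < (-(c * u ^ 2)).re := by
    rw [Complex.neg_re]
    linarith
  have h2 : ∀ s : ℝ, Complex.exp (c * u ^ 2 * (s:ℂ) ^ 2)
      = Complex.exp (-(-(c * u ^ 2)) * (s:ℂ) ^ 2) := by
    intro s
    congr 1
    ring
  simp only [h2]
  rw [integral_gauss_half hb]
  set b := -(c * u ^ 2) with hbdef
  have hb0 : b ≠ 0 := by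
    intro h0
    rw [h0] at hb
    simp at hb
  have hpos : 0 < (Real.pi / b : ℂ).re := by
    rw [Complex.div_re]
    simp only [Complex.ofReal_re, Complex.ofReal_im, zero_mul, zero_div, add_zero]
    have : 0 < Complex.normSq b := Complex.normSq_pos.mpr hb0
    positivity
  refine ⟨_, rfl, ?_, ?_⟩
  · have h3 := cpow_half_re_pos hpos
    have : ((Real.pi / b : ℂ) ^ (1 / 2 : ℂ) / 2).re = ((Real.pi / b : ℂ) ^ (1 / 2 : ℂ)).re / 2 := by
      simp
    rw [this]
    linarith
  · set y := (Real.pi / b : ℂ) ^ (1 / 2 : ℂ) with hy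
    have h3 : 0 < y.re := cpow_half_re_pos hpos
    have h4 : y ^ 2 = Real.pi / b := by
      rw [hy, ← Complex.cpow_nat_mul]
      norm_num
    have h5 : (y ^ 2).re = y.re ^ 2 - y.im ^ 2 := by
      rw [sq, Complex.mul_re]
      ring
    have h6 : y.im ^ 2 < y.re ^ 2 := by
      rw [h4] at h5
      linarith
    have h7 : |y.im| < y.re := abs_lt_of_sq_lt_sq h6 h3.le
    have e1 : (y / 2).re = y.re / 2 := by simp
    have e2 : (y / 2).im = y.im / 2 := by simp
    rw [e1, e2, abs_div]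
    norm_num
    linarith

/-- the two half Gaussians of opposite valleys do not cancel -/
theorem gauss_pair_ne_zero {c u1 u2 : ℂ} (h1 : (c * u1 ^ 2).re < 0) (h2 : (c * u2 ^ 2).re < 0)
    (hopp : (u1 * (starRingEnd ℂ) u2).re ≤ 0) :
    u1 * (∫ s in Ioi (0 : ℝ), Complex.exp (c * u1 ^ 2 * (s : ℂ) ^ 2)) -
      u2 * (∫ s in Ioi (0 : ℝ), Complex.exp (c * u2 ^ 2 * (s : ℂ) ^ 2)) ≠ 0 := by
  obtain ⟨g1, hg1, hr1, hi1⟩ := half_gauss_props h1
  obtain ⟨g2, hg2, hr2, hi2⟩ := half_gauss_props h2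
  rw [hg1, hg2]
  intro h
  have he : u1 * g1 = u2 * g2 := sub_eq_zero.mp h
  have hu1 : u1 ≠ 0 := by
    intro h0
    rw [h0] at h1
    simp at h1
  have hg1' : g1 ≠ 0 := by
    intro h0
    rw [h0] at hr1
    simp at hr1
  have hG : u1 * g1 ≠ 0 := mul_ne_zero hu1 hg1'
  have hY : 0 < (g1 * (starRingEnd ℂ) g2).re := by
    rw [Complex.mul_re, Complex.conj_re, Complex.conj_im]
    rw [abs_lt] at hi1 hi2
    nlinarith [hi1.1, hi1.2, hi2.1, hi2.2]
  have hXY : (u1 * (starRingEnd ℂ) u2) * (g1 * (starRingEnd ℂ) g2) =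
      ((Complex.normSq (u1 * g1) : ℝ) : ℂ) := by
    rw [Complex.normSq_eq_conj_mul_self]
    nth_rewrite 2 [he]
    simp only [map_mul]
    have : (starRingEnd ℂ) (u1 * g1) = (starRingEnd ℂ) (u2 * g2) := by rw [he]
    simp only [map_mul] at this
    calc (u1 * (starRingEnd ℂ) u2) * (g1 * (starRingEnd ℂ) g2)
        = (u1 * g1) * ((starRingEnd ℂ) u2 * (starRingEnd ℂ) g2) := by ring
      _ = (u2 * g2) * ((starRingEnd ℂ) u1 * (starRingEnd ℂ) g1) := by rw [he, this]
      _ = _ := by ring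
  have hpos : 0 < Complex.normSq (u1 * g1) := Complex.normSq_pos.mpr hG
  set X := u1 * (starRingEnd ℂ) u2 with hX
  set Y := g1 * (starRingEnd ℂ) g2 with hYd
  have h3 : X.re * Complex.normSq Y = Complex.normSq (u1 * g1) * Y.re := by
    have h4 : X * (Y * (starRingEnd ℂ) Y) =
        ((Complex.normSq (u1 * g1) : ℝ) : ℂ) * (starRingEnd ℂ) Y := by
      rw [← mul_assoc, hXY]
    rw [Complex.mul_conj] at h4
    have h5 := congrArg Complex.re h4
    rw [Complex.re_mul_ofReal, Complex.re_ofReal_mul, Complex.conj_re] at h5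
    exact h5
  have h6 : 0 < Complex.normSq (u1 * g1) * Y.re := mul_pos hpos hY
  have h7 : 0 ≤ Complex.normSq Y := Complex.normSq_nonneg _
  have h8 : X.re * Complex.normSq Y ≤ 0 := mul_nonpos_of_nonpos_of_nonneg hopp h7
  linarith

/-- the quotient of the end points lies in the slit plane if the segment avoids `p` -/
theorem slit_of_avoid {p a b : ℂ} (h : ∀ t ∈ Icc (0 : ℝ) 1, a + t * (b - a) ≠ p) :
    (b - p) / (a - p) ∈ Complex.slitPlane := by
  have ha : a - p ≠ 0 := by
    have := h 0 ⟨le_rfl, zero_le_one⟩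
    simpa using sub_ne_zero.mpr this
  rw [Complex.mem_slitPlane_iff]
  by_contra hcon
  push Not at hcon
  obtain ⟨h1, h2⟩ := hcon
  set r := -((b - p) / (a - p)).re with hr
  have hr0 : 0 ≤ r := by linarith
  have h3 : (b - p) / (a - p) = -(r : ℂ) := by
    apply Complex.ext
    · rw [Complex.neg_re, Complex.ofReal_re, hr]
      ring
    · rw [Complex.neg_im, Complex.ofReal_im, h2]
      ring
  have h4 : b - p = -(r : ℂ) * (a - p) := by
    rw [← h3]
    field_simp
  have hr1 : (0 : ℝ) < 1 + r := by linarith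
  refine h (1 / (1 + r)) ⟨by positivity, ?_⟩ ?_
  · rw [div_le_one hr1]
    linarith
  · have hr1C : (1 + (r : ℂ)) ≠ 0 := by exact_mod_cast hr1.ne'
    have h5 : b = p - (r : ℂ) * (a - p) := by linear_combination h4
    push_cast
    rw [h5]
    field_simp
    ring

theorem polyInt_cons_append (f : ℂ → ℂ) (b : ℂ) : ∀ (L : List ℂ) (a : ℂ),
    polyInt f (a :: (L ++ [b])) = polyInt f (a :: L) + segInt f ((a :: L).getLast (by simp)) b
  | [], a => by simp [polyInt]
  | c :: L, a => by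
      have ih := polyInt_cons_append f b L c
      simp only [List.cons_append, polyInt, List.getLast_cons_cons] at ih ⊢
      rw [ih]
      ring

theorem PolyOff_cons_append (z b : ℂ) : ∀ (L : List ℂ) (a : ℂ),
    PolyOff z (a :: (L ++ [b])) ↔ PolyOff z (a :: L) ∧
      (b - z) / ((a :: L).getLast (by simp) - z) ∈ Complex.slitPlane
  | [], a => by simp [PolyOff]
  | c :: L, a => by
      have ih := PolyOff_cons_append z b L c
      simp only [List.cons_append, PolyOff, List.getLast_cons_cons] at ih ⊢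
      rw [ih]
      tauto

theorem slit_eventually {ι : Type*} {l : Filter ι} {p a b : ℂ}
    (h : (b - p) / (a - p) ∈ Complex.slitPlane) {z A B : ι → ℂ}
    (hz : Tendsto z l (𝓝 p)) (hA : Tendsto A l (𝓝 a)) (hB : Tendsto B l (𝓝 b)) :
    ∀ᶠ k in l, (B k - z k) / (A k - z k) ∈ Complex.slitPlane := by
  have ha : a - p ≠ 0 := by
    intro h0
    rw [h0, div_zero] at h
    exact Complex.zero_notMem_slitPlane h
  have h1 := (hB.sub hz).div (hA.sub hz) ha
  exact h1.eventually (Complex.isOpen_slitPlane.mem_nhds h)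

theorem PolyOff_eventually {ι : Type*} {l : Filter ι} {P : ℂ[X]} {α : ℝ} {p w0 : ℂ}
    {z : ι → ℂ} (hz : Tendsto z l (𝓝 p)) :
    ∀ L : List ℂ, PolyLow P α p w0 L → ∀ᶠ k in l, PolyOff (z k) L
  | [], _ => Eventually.of_forall fun k => trivial
  | [_], _ => Eventually.of_forall fun k => trivial
  | a :: b :: L, h => by
      have h1 := slit_eventually (slit_of_avoid (p := p) (a := a) (b := b)
        (fun t ht => (h.1 t ht).1)) hz (tendsto_const_nhds (x := a)) (tendsto_const_nhds (x := b))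
      filter_upwards [h1, PolyOff_eventually hz (b :: L) h.2] with k h2 h3
      exact ⟨h2, h3⟩

/-- Geometric data of a one-saddle contour at `(α, p)`: the closed polygon
`w0, a, ..., w0` with middle part `a :: L`. -/
structure OneSaddle (P : ℂ[X]) (α : ℝ) (p w0 a : ℂ) (L : List ℂ) : Prop where
  hP : P.eval w0 ≠ 0
  hw0 : w0 ≠ p
  hs : Fp P α p w0 = 0
  low1 : ∀ t ∈ Ioc (0 : ℝ) 1, Low P α p w0 (w0 + t * (a - w0))
  low2 : ∀ t ∈ Ioc (0 : ℝ) 1, Low P α p w0 (w0 + t * ((a :: L).getLast (by simp) - w0))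
  low : PolyLow P α p w0 (a :: L)
  neg1 : (Fpp P α p w0 * (a - w0) ^ 2).re < 0
  neg2 : (Fpp P α p w0 * ((a :: L).getLast (by simp) - w0) ^ 2).re < 0
  opp : ((a - w0) * (starRingEnd ℂ) ((a :: L).getLast (by simp) - w0)).re ≤ 0

/-- the limit of the normalised integral -/
noncomputable def limJ (P : ℂ[X]) (α : ℝ) (p w0 a b : ℂ) : ℂ :=
  (a - w0) * (∫ s in Ioi (0 : ℝ), Complex.exp (Fpp P α p w0 / 2 * (a - w0) ^ 2 * (s : ℂ) ^ 2)) -
  (b - w0) * (∫ s in Ioi (0 : ℝ), Complex.exp (Fpp P α p w0 / 2 * (b - w0) ^ 2 * (s : ℂ) ^ 2))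

theorem OneSaddle.limJ_ne_zero {P : ℂ[X]} {α : ℝ} {p w0 a : ℂ} {L : List ℂ}
    (h : OneSaddle P α p w0 a L) : limJ P α p w0 a ((a :: L).getLast (by simp)) ≠ 0 := by
  refine gauss_pair_ne_zero ?_ ?_ h.opp
  · have := h.neg1
    have e : Fpp P α p w0 / 2 * (a - w0) ^ 2 =
        ((1 / 2 : ℝ) : ℂ) * (Fpp P α p w0 * (a - w0) ^ 2) := by
      push_cast
      ring
    rw [e, Complex.re_ofReal_mul]
    linarith
  · have := h.neg2
    have e : Fpp P α p w0 / 2 * ((a :: L).getLast (by simp) - w0) ^ 2 =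
        ((1 / 2 : ℝ) : ℂ) * (Fpp P α p w0 * ((a :: L).getLast (by simp) - w0) ^ 2) := by
      push_cast
      ring
    rw [e, Complex.re_ofReal_mul]
    linarith

/-- asymptotics of the closed polygon integral through the moving saddle -/
theorem OneSaddle.tendsto_integral {ι : Type*} {l : Filter ι} [l.IsCountablyGenerated]
    {P : ℂ[X]} {α : ℝ} {p w0 a : ℂ} {L : List ℂ} (h : OneSaddle P α p w0 a L) (j : ℕ)
    {n m : ι → ℕ} {z w : ι → ℂ}
    (hn : Tendsto n l atTop) (hα : Tendsto (fun k => (m k : ℝ) / n k) l (𝓝 α))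
    (hz : Tendsto z l (𝓝 p)) (hw : Tendsto w l (𝓝 w0))
    (hs : ∀ᶠ k in l, Fp P ((m k : ℝ) / n k) (z k) (w k) = 0) :
    Tendsto (fun k => (Real.sqrt (n k) : ℂ) *
      polyInt (ker P j (n k) (m k) (z k)) (w k :: a :: (L ++ [w k])) /
      ker P j (n k) (m k) (z k) (w k)) l
      (𝓝 (limJ P α p w0 a ((a :: L).getLast (by simp)))) := by
  set b := (a :: L).getLast (by simp) with hb
  have h1 := gauss_segment j h.hP h.hw0 h.neg1 h.low1 hn hα hz hw hs
  have h2 := gauss_segment j h.hP h.hw0 h.neg2 h.low2 hn hα hz hw hs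
  obtain ⟨q, C, hq0, hq1, hC, hfar⟩ := norm_polyInt_far j h.hP h.hw0 hn hα hz hw (a :: L) h.low
  have hPk : ∀ᶠ k in l, P.eval (w k) ≠ 0 :=
    (P.continuous.tendsto w0 |>.comp hw).eventually_ne h.hP
  have hwk : ∀ᶠ k in l, w k - z k ≠ 0 := (hw.sub hz).eventually_ne (sub_ne_zero.mpr h.hw0)
  have h3 : Tendsto (fun k => (Real.sqrt (n k) : ℂ) *
      polyInt (ker P j (n k) (m k) (z k)) (a :: L) / ker P j (n k) (m k) (z k) (w k)) l (𝓝 0) := by
    refine squeeze_zero_norm' ?_ (tendsto_sqrt_mul_pow hn hq0 hq1 C)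
    filter_upwards [hfar, hPk, hwk] with k hk hPk hwk
    have hker : 0 < ‖ker P j (n k) (m k) (z k) (w k)‖ :=
      norm_pos_iff.mpr (ker_ne_zero j (n k) (m k) hPk (sub_ne_zero.mp hwk))
    rw [norm_div, norm_mul, Complex.norm_real, Real.norm_eq_abs,
      abs_of_nonneg (Real.sqrt_nonneg _), div_le_iff₀ hker, mul_assoc]
    exact mul_le_mul_of_nonneg_left hk (Real.sqrt_nonneg _)
  have h4 := (h1.add h3).sub h2
  rw [add_zero] at h4
  refine h4.congr fun k => ?_
  have e : polyInt (ker P j (n k) (m k) (z k)) (w k :: a :: (L ++ [w k])) =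
      segInt (ker P j (n k) (m k) (z k)) (w k) a + polyInt (ker P j (n k) (m k) (z k)) (a :: L) -
        segInt (ker P j (n k) (m k) (z k)) (w k) b := by
    rw [polyInt, polyInt_cons_append, segInt_symm _ (w k) b]
    ring
  rw [e]
  ring

/-- the polygon integral is the Taylor coefficient times the logarithm sum -/
theorem polyInt_ker (P : ℂ[X]) (j n m : ℕ) (z a b : ℂ) (L : List ℂ)
    (hoff : PolyOff z (a :: (L ++ [b]))) (hab : a = b) :
    polyInt (ker P (j + 1) n m z) (a :: (L ++ [b])) =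
      (taylor z (P ^ n)).coeff (m + j) * polyLog z (a :: (L ++ [b])) := by
  have h := polyInt_coeff (P ^ n) (m + j) (L ++ [b]) a hoff
  have e : (fun w => (P ^ n).eval w / (w - z) ^ (m + j + 1)) = ker P (j + 1) n m z := by
    funext w
    unfold ker
    rw [eval_pow, add_assoc]
  rw [e] at h
  rw [h]
  have e2 : (a :: (L ++ [b])).getLast (by simp) = b := by
    simp
  rw [e2, hab]
  ring

/-- existence of the moving saddle -/
theorem exists_moving_saddle {ι : Type*} {l : Filter ι} {P : ℂ[X]} {α : ℝ} {p w0 : ℂ}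
    (hP : P.eval w0 ≠ 0) (hw0 : w0 ≠ p) (hs : Fp P α p w0 = 0) (hF : Fpp P α p w0 ≠ 0)
    {a : ι → ℝ} {z : ι → ℂ} (hα : Tendsto a l (𝓝 α)) (hz : Tendsto z l (𝓝 p)) :
    ∃ w : ι → ℂ, Tendsto w l (𝓝 w0) ∧ ∀ᶠ k in l, Fp P (a k) (z k) (w k) = 0 := by
  classical
  set g : ℂ → ℂ := fun w => (derivative P).eval w * (w - p) - α * P.eval w with hg
  set f : ι → ℂ → ℂ := fun k w => (derivative P).eval w * (w - z k) - (a k) * P.eval w with hf
  have hFp : ∀ (β : ℝ) (ζ w : ℂ), P.eval w ≠ 0 → w ≠ ζ →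
      (Fp P β ζ w = 0 ↔ (derivative P).eval w * (w - ζ) - β * P.eval w = 0) := by
    intro β ζ w h1 h2
    have h2' : w - ζ ≠ 0 := sub_ne_zero.mpr h2
    unfold Fp
    rw [div_sub_div _ _ h1 h2', div_eq_zero_iff, or_iff_left (mul_ne_zero h1 h2')]
    constructor
    · intro h
      linear_combination h
    · intro h
      linear_combination h
  have hg0 : g w0 = 0 := (hFp α p w0 hP hw0).mp hs
  have hfd : ∀ k, Differentiable ℂ (f k) := by
    intro k
    exact ((derivative P).differentiable.mul (by fun_prop)).sub (P.differentiable.const_mul _)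
  have hgd : Differentiable ℂ g :=
    ((derivative P).differentiable.mul (by fun_prop)).sub (P.differentiable.const_mul _)
  -- the derivative of g at w0
  have hder : HasDerivAt g (Fpp P α p w0 * (P.eval w0 * (w0 - p))) w0 := by
    have h1 : HasDerivAt g ((derivative (derivative P)).eval w0 * (w0 - p) +
        (derivative P).eval w0 * 1 - α * (derivative P).eval w0) w0 := by
      refine HasDerivAt.sub ?_ ((P.hasDerivAt w0).const_mul _)
      exact ((derivative P).hasDerivAt w0).mul ((hasDerivAt_id w0).sub_const p)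
    refine h1.congr_deriv ?_
    have h2 : (derivative P).eval w0 * (w0 - p) = α * P.eval w0 := by
      have : (derivative P).eval w0 * (w0 - p) - α * P.eval w0 = 0 := hg0
      linear_combination this
    have h3 : w0 - p ≠ 0 := sub_ne_zero.mpr hw0
    unfold Fpp
    field_simp
    linear_combination ((derivative P).eval w0 * (w0 - p) + P.eval w0) * h2
  have hne : ∃ w ∈ Metric.ball w0 1, g w ≠ 0 := by
    by_contra hcon
    push Not at hcon
    have h1 : g =ᶠ[𝓝 w0] fun _ => 0 := by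
      filter_upwards [Metric.ball_mem_nhds w0 one_pos] with w hw using hcon w hw
    have h2 : HasDerivAt g 0 w0 := (hasDerivAt_const w0 (0 : ℂ)).congr_of_eventuallyEq h1
    have h3 := hder.unique h2
    exact mul_ne_zero hF (mul_ne_zero hP (sub_ne_zero.mpr hw0)) h3
  have huni : TendstoUniformlyOn f g l (Metric.ball w0 1) := by
    rw [Metric.tendstoUniformlyOn_iff]
    intro ε hε
    obtain ⟨C1, hC1⟩ := (isCompact_closedBall w0 1).exists_bound_of_continuousOn
      ((derivative P).continuous.continuousOn (s := Metric.closedBall w0 1))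
    obtain ⟨C2, hC2⟩ := (isCompact_closedBall w0 1).exists_bound_of_continuousOn
      (P.continuous.continuousOn (s := Metric.closedBall w0 1))
    have h1 : Tendsto (fun k => |C1| * ‖z k - p‖ + |C2| * |a k - α|) l (𝓝 0) := by
      have e1 : Tendsto (fun k => ‖z k - p‖) l (𝓝 0) := by
        have := (hz.sub_const p).norm
        simpa using this
      have e2 : Tendsto (fun k => |a k - α|) l (𝓝 0) := by
        have := (hα.sub_const α).abs
        simpa using this
      simpa using (e1.const_mul |C1|).add (e2.const_mul |C2|)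
    filter_upwards [h1.eventually (gt_mem_nhds hε)] with k hk w hw
    rw [dist_eq_norm]
    have hw' : w ∈ Metric.closedBall w0 1 := Metric.ball_subset_closedBall hw
    have e : g w - f k w = (derivative P).eval w * (z k - p) + ((a k - α : ℝ) : ℂ) * P.eval w := by
      simp only [hg, hf]
      push_cast
      ring
    rw [e]
    refine lt_of_le_of_lt ((norm_add_le _ _).trans ?_) hk
    rw [norm_mul, norm_mul, Complex.norm_real, Real.norm_eq_abs, mul_comm |C2|]
    have h2 : ‖(derivative P).eval w‖ ≤ |C1| := (hC1 w hw').trans (le_abs_self _)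
    have h3 : ‖P.eval w‖ ≤ |C2| := (hC2 w hw').trans (le_abs_self _)
    gcongr
  have hzero : ∀ ε > 0, ∀ᶠ k in l, ∃ s ∈ Metric.ball w0 ε, f k s = 0 := by
    intro ε hε
    exact hurwitz one_pos (Eventually.of_forall fun k => (hfd k).diffContOnCl)
      hgd.differentiableOn huni hg0 hne hε
  -- choose the nearest zero
  set S : ι → Set ℂ := fun k => {s | f k s = 0} with hS
  have hclosed : ∀ k, IsClosed (S k) := fun k =>
    isClosed_eq (hfd k).continuous continuous_const
  set w : ι → ℂ := fun k => if h : (S k).Nonempty then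
    ((hclosed k).exists_infDist_eq_dist h w0).choose else w0 with hw
  have hwspec : ∀ k, (S k).Nonempty → w k ∈ S k ∧ Metric.infDist w0 (S k) = dist w0 (w k) := by
    intro k h
    have := ((hclosed k).exists_infDist_eq_dist h w0).choose_spec
    simp only [hw, h, dif_pos]
    exact this
  have hwt : Tendsto w l (𝓝 w0) := by
    rw [Metric.tendsto_nhds]
    intro ε hε
    filter_upwards [hzero ε hε] with k hk
    obtain ⟨s, hs1, hs2⟩ := hk
    have h1 := hwspec k ⟨s, hs2⟩
    have h2 : Metric.infDist w0 (S k) ≤ dist w0 s := Metric.infDist_le_dist_of_mem hs2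
    rw [Metric.mem_ball, dist_comm] at hs1
    rw [dist_comm, ← h1.2]
    exact lt_of_le_of_lt h2 hs1
  refine ⟨w, hwt, ?_⟩
  have e1 : ∀ᶠ k in l, P.eval (w k) ≠ 0 :=
    (P.continuous.tendsto w0 |>.comp hwt).eventually_ne hP
  have e2 : ∀ᶠ k in l, w k - z k ≠ 0 := (hwt.sub hz).eventually_ne (sub_ne_zero.mpr hw0)
  filter_upwards [hzero 1 one_pos, e1, e2] with k hk h1 h2
  obtain ⟨s, _, hs2⟩ := hk
  exact (hFp _ _ _ h1 (sub_ne_zero.mp h2)).mpr (hwspec k ⟨s, hs2⟩).1

theorem OneSaddle.Fpp_ne_zero {P : ℂ[X]} {α : ℝ} {p w0 a : ℂ} {L : List ℂ}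
    (h : OneSaddle P α p w0 a L) : Fpp P α p w0 ≠ 0 := by
  intro h0
  have := h.neg1
  rw [h0] at this
  simp at this

/-- the moving closed polygon is seen from the moving point under small angles -/
theorem OneSaddle.polyOff {ι : Type*} {l : Filter ι} {P : ℂ[X]} {α : ℝ} {p w0 a : ℂ}
    {L : List ℂ} (h : OneSaddle P α p w0 a L) {z w : ι → ℂ} (hz : Tendsto z l (𝓝 p))
    (hw : Tendsto w l (𝓝 w0)) :
    ∀ᶠ k in l, PolyOff (z k) (w k :: ((a :: L) ++ [w k])) := by
  have h1 := PolyOff_eventually hz (a :: L) h.low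
  have h2 : ∀ᶠ k in l, (a - z k) / (w k - z k) ∈ Complex.slitPlane := by
    refine slit_eventually (slit_of_avoid (p := p) (a := w0) (b := a) fun t ht => ?_) hz hw
      (tendsto_const_nhds (x := a))
    rcases ht.1.eq_or_lt with h0 | h0
    · rw [← h0]
      simpa using h.hw0
    · exact (h.low1 t ⟨h0, ht.2⟩).1
  have h3 : ∀ᶠ k in l, (w k - z k) / ((a :: L).getLast (by simp) - z k) ∈ Complex.slitPlane := by
    refine slit_eventually (slit_of_avoid (p := p) (a := (a :: L).getLast (by simp)) (b := w0)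
      fun t ht => ?_) hz (tendsto_const_nhds (x := (a :: L).getLast (by simp))) hw
    rcases ht.2.eq_or_lt with h0 | h0
    · rw [h0]
      simpa using h.hw0
    · have := (h.low2 (1 - t) ⟨by linarith, by linarith [ht.1]⟩).1
      intro h4
      apply this
      rw [← h4]
      push_cast
      ring
  filter_upwards [h1, h2, h3] with k e1 e2 e3
  refine ⟨e2, ?_⟩
  change PolyOff (z k) (a :: (L ++ [w k]))
  rw [PolyOff_cons_append]
  exact ⟨e1, e3⟩

/-- ONE-SADDLE THEOREM: no zeros. -/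
theorem OneSaddle.no_zero {ι : Type*} {l : Filter ι} [l.IsCountablyGenerated]
    {P : ℂ[X]} {α : ℝ} {p w0 a : ℂ} {L : List ℂ} (h : OneSaddle P α p w0 a L)
    {n m : ι → ℕ} {z : ι → ℂ}
    (hn : Tendsto n l atTop) (hα : Tendsto (fun k => (m k : ℝ) / n k) l (𝓝 α))
    (hz : Tendsto z l (𝓝 p)) :
    ∀ᶠ k in l, (derivative^[m k] (P ^ n k)).eval (z k) ≠ 0 := by
  obtain ⟨w, hw, hs⟩ := exists_moving_saddle h.hP h.hw0 h.hs h.Fpp_ne_zero hα hz
  have h1 := h.tendsto_integral 1 hn hα hz hw hs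
  filter_upwards [h1.eventually_ne h.limJ_ne_zero, h.polyOff hz hw] with k hk hoff
  intro h0
  apply hk
  have h2 := polyInt_ker P 0 (n k) (m k) (z k) (w k) (w k) (a :: L) hoff rfl
  rw [zero_add, add_zero] at h2
  have h3 : (taylor (z k) (P ^ n k)).coeff (m k) = 0 := by
    have h4 := eval_iterate_derivative_eq (P ^ n k) (m k) (z k)
    rw [h0] at h4
    have h5 : ((m k).factorial : ℂ) ≠ 0 := by exact_mod_cast Nat.factorial_ne_zero _
    exact (mul_eq_zero.mp h4.symm).resolve_left h5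
  rw [h3, zero_mul] at h2
  have e : w k :: a :: (L ++ [w k]) = w k :: ((a :: L) ++ [w k]) := rfl
  rw [e, h2]
  simp

/-- ONE-SADDLE THEOREM: ratio asymptotics. -/
theorem OneSaddle.ratio {ι : Type*} {l : Filter ι} [l.IsCountablyGenerated]
    {P : ℂ[X]} {α : ℝ} {p w0 a : ℂ} {L : List ℂ} (h : OneSaddle P α p w0 a L)
    {n m : ι → ℕ} {z : ι → ℂ}
    (hn : Tendsto n l atTop) (hα : Tendsto (fun k => (m k : ℝ) / n k) l (𝓝 α))
    (hz : Tendsto z l (𝓝 p)) :
    Tendsto (fun k => (derivative^[m k + 1] (P ^ n k)).eval (z k) /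
      ((n k : ℂ) * (derivative^[m k] (P ^ n k)).eval (z k))) l (𝓝 (α / (w0 - p))) := by
  obtain ⟨w, hw, hs⟩ := exists_moving_saddle h.hP h.hw0 h.hs h.Fpp_ne_zero hα hz
  have h1 := h.tendsto_integral 1 hn hα hz hw hs
  have h2 := h.tendsto_integral 2 hn hα hz hw hs
  have hJ := h.limJ_ne_zero
  have h3 := h2.div h1 hJ
  rw [div_self hJ] at h3
  have hwz : Tendsto (fun k => 1 / (w k - z k)) l (𝓝 (1 / (w0 - p))) :=
    (tendsto_const_nhds).div (hw.sub hz) (sub_ne_zero.mpr h.hw0)
  have hmn : Tendsto (fun k => (((m k : ℝ) / n k : ℝ) : ℂ) + 1 / (n k : ℂ)) l (𝓝 α) := by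
    have e1 := (Complex.continuous_ofReal.tendsto α).comp hα
    have e2 : Tendsto (fun k => 1 / (n k : ℂ)) l (𝓝 0) := by
      have := (tendsto_one_div_atTop_nhds_zero_nat (𝕜 := ℂ)).comp hn
      exact this
    have := e1.add e2
    simpa [Function.comp_def] using this
  have h4 := (h3.mul hwz).mul hmn
  have e0 : 1 * (1 / (w0 - p)) * (α : ℂ) = α / (w0 - p) := by ring
  rw [e0] at h4
  refine h4.congr' ?_
  have hPk : ∀ᶠ k in l, P.eval (w k) ≠ 0 :=
    (P.continuous.tendsto w0 |>.comp hw).eventually_ne h.hP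
  have hwk : ∀ᶠ k in l, w k - z k ≠ 0 := (hw.sub hz).eventually_ne (sub_ne_zero.mpr h.hw0)
  filter_upwards [h1.eventually_ne hJ, h.polyOff hz hw, hPk, hwk, hn.eventually_gt_atTop 0]
    with k hk hoff hPk hwk hnk
  have hnC : (n k : ℂ) ≠ 0 := by exact_mod_cast hnk.ne'
  have g1 := polyInt_ker P 0 (n k) (m k) (z k) (w k) (w k) (a :: L) hoff rfl
  have g2 : polyInt (ker P 2 (n k) (m k) (z k)) (w k :: ((a :: L) ++ [w k])) =
      (taylor (z k) (P ^ n k)).coeff (m k + 1) * polyLog (z k) (w k :: ((a :: L) ++ [w k])) :=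
    polyInt_ker P 1 (n k) (m k) (z k) (w k) (w k) (a :: L) hoff rfl
  rw [zero_add, add_zero] at g1
  simp only [List.cons_append] at g1 g2
  rw [g1] at hk
  simp only [Pi.div_apply]
  rw [g1, g2, eval_iterate_derivative_eq, eval_iterate_derivative_eq]
  have k1 : ker P 1 (n k) (m k) (z k) (w k) ≠ 0 := ker_ne_zero _ _ _ hPk (sub_ne_zero.mp hwk)
  have k2 : ker P 2 (n k) (m k) (z k) (w k) =
      ker P 1 (n k) (m k) (z k) (w k) / (w k - z k) := by
    unfold ker
    rw [div_div, ← pow_succ]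
  rw [k2]
  have hs1 : (Real.sqrt (n k) : ℂ) ≠ 0 := by
    intro h0
    rw [h0] at hk
    simp at hk
  have hT : (taylor (z k) (P ^ n k)).coeff (m k) ≠ 0 := by
    intro h0
    rw [h0] at hk
    simp at hk
  have hlog : polyLog (z k) (w k :: a :: (L ++ [w k])) ≠ 0 := by
    intro h0
    rw [h0] at hk
    simp at hk
  have hfac : ((m k).factorial : ℂ) ≠ 0 := by exact_mod_cast Nat.factorial_ne_zero _
  rw [Nat.factorial_succ]
  push_cast
  field_simp

end Pool.Agent.Shadow69
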